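import Pool.Agent.N481.EP.Lim8

/-!
The seventh moment of the occupation of small discs, for the limits.
-/

set_option autoImplicit false

namespace Pool.Agent.N481.EP

open H984N MeasureTheory Filter Topology

/-- The time which the piece between `s` and `t` spends within distance `r` of `f u`. -/
noncomputable def oc (f : C(unitInterval, ℂ)) (s t : unitInterval) (r : ℝ) (u : unitInterval) : ℝ :=
  (volume {v : unitInterval | (s ≤ v ∧ v ≤ t) ∧ dist (f u) (f v) ≤ r}).toReal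

theorem oc_nonneg (f : C(unitInterval, ℂ)) (s t : unitInterval) (r : ℝ) (u : unitInterval) :
    0 ≤ oc f s t r u := ENNReal.toReal_nonneg

theorem oc_le_mm {f : C(unitInterval, ℂ)} {s t : unitInterval} {r r' : ℝ} (hr' : 0 < r')
    (h : r ≤ r') (u : unitInterval) : oc f s t r u ≤ mm r' f s t u := by
  have hc : Continuous fun v => dist (f u) (f v) := continuous_const.dist f.continuous
  have hm : MeasurableSet {v : unitInterval | dist (f u) (f v) ≤ r} :=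
    (isClosed_le hc continuous_const).measurableSet
  have e : {v : unitInterval | (s ≤ v ∧ v ≤ t) ∧ dist (f u) (f v) ≤ r} =
      Set.Icc s t ∩ {v : unitInterval | dist (f u) (f v) ≤ r} := rfl
  have h1 : oc f s t r u = ∫ v in Set.Icc s t,
      ({v : unitInterval | dist (f u) (f v) ≤ r}).indicator (fun _ => (1:ℝ)) v := by
    rw [setIntegral_indicator hm, setIntegral_const, smul_eq_mul, mul_one]
    unfold oc
    rw [e]
    rfl
  rw [h1]
  unfold mm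
  refine setIntegral_mono_on ?_ (chi_int r' f _ u) measurableSet_Icc fun v _ => ?_
  · exact ((integrable_const (1:ℝ)).indicator hm).integrableOn
  · by_cases hv : dist (f u) (f v) ≤ r
    · rw [Set.indicator_of_mem (show v ∈ {v : unitInterval | dist (f u) (f v) ≤ r} from hv),
        chi_one ((div_le_one hr').mpr (hv.trans h))]
    · rw [Set.indicator_of_notMem (show v ∉ {v : unitInterval | dist (f u) (f v) ≤ r} from hv)]
      exact chi_nonneg _

theorem oc7_le {f : C(unitInterval, ℂ)} {s t : unitInterval} {r r' : ℝ} (hr' : 0 < r')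
    (h : r ≤ r') (T : ℝ) (hT : 0 ≤ T) :
    ∫ u in Set.Icc s t, (T * oc f s t r u) ^ 7 ≤ T ^ 7 * En7 r' f s t := by
  have hI : Integrable (fun u => (T * mm r' f s t u) ^ 7) :=
    (((mm_cont r' f s t).const_mul T).pow 7).integrable_of_hasCompactSupport
      (HasCompactSupport.of_compactSpace _)
  refine (integral_mono_of_nonneg (Eventually.of_forall fun u => ?_) hI.integrableOn
    (Eventually.of_forall fun u => ?_)).trans (le_of_eq ?_)
  · exact pow_nonneg (mul_nonneg hT (oc_nonneg _ _ _ _ _)) 7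
  · exact pow_le_pow_left₀ (mul_nonneg hT (oc_nonneg _ _ _ _ _))
      (mul_le_mul_of_nonneg_left (oc_le_mm hr' h u) hT) 7
  · unfold En7
    rw [← integral_const_mul]
    congr 1
    funext u
    rw [mul_pow]

theorem all_E {K : ℝ} (hK : 0 < K) {p : X} (hp : 0 < p.2) (h : ∀ᶠ j : ℕ in atTop, p ∈ EQ K j) :
    ∀ᶠ r : ℝ in 𝓝[>] 0, ∀ s t : unitInterval, s ≤ t →
      (K * 16 ^ 15 + 1) * (r ^ (7/4 : ℝ) * Real.log (1 / r)) ≤ p.2 * ((t:ℝ) - s) →
      ∫ u in Set.Icc s t, (p.2 * oc p.1 s t r u) ^ 7 ≤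
        ((K * 16 ^ 15 + 1) * r ^ (7/4 : ℝ)) ^ 7 * ((t:ℝ) - s) := by
  obtain ⟨J, hJ⟩ := eventually_atTop.mp h
  have hev : ∀ᶠ r : ℝ in 𝓝[>] 0, 0 < r ∧ r < (1/2) ^ J / 8 :=
    Filter.Eventually.and self_mem_nhdsWithin
      (nhdsWithin_le_nhds (gt_mem_nhds (by positivity)))
  filter_upwards [hev] with r hr s t hst hlong
  obtain ⟨hr0, hr1⟩ := hr
  have hJ1 : ((1:ℝ)/2) ^ J ≤ 1 := pow_le_one₀ (by norm_num) (by norm_num)
  obtain ⟨n, hn1, hn2⟩ := exists_nat_pow_near_of_lt_one (x := 8 * r) (y := (1/2:ℝ))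
    (by positivity) (by linarith) (by norm_num) (by norm_num)
  have hnJ : J ≤ n := by
    by_contra hcon
    push Not at hcon
    have h5 : ((1:ℝ)/2) ^ J ≤ (1/2) ^ (n + 1) :=
      pow_le_pow_of_le_one (by norm_num) (by norm_num) hcon
    linarith
  have hQ := hJ n hnJ s t hst
  have hst' : (s:ℝ) ≤ t := hst
  obtain ⟨x, hx⟩ : ∃ x : ℝ, x = (1/2:ℝ) ^ n := ⟨_, rfl⟩
  rw [pow_succ, ← hx] at hn1
  rw [← hx] at hn2 hQ
  have hx0 : 0 < x := by rw [hx]; positivity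
  have hx16 : x ≤ 16 * r := by linarith
  -- the logarithm
  have hlog : (n:ℝ) + 1 ≤ 3 * Real.log (1 / r) := by
    have l1 : Real.log (1 / x) = n * Real.log 2 := by
      rw [hx, one_div, ← inv_pow, Real.log_pow]
      norm_num
    have l2 : Real.log (1 / x) ≤ Real.log (1 / (8 * r)) :=
      Real.log_le_log (by positivity) (one_div_le_one_div_of_le (by positivity) hn2)
    have l3 : Real.log (1 / (8 * r)) = Real.log (1 / r) - Real.log 8 := by
      rw [← Real.log_div (by positivity) (by norm_num)]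
      congr 1
      field_simp
    have l4 : Real.log 8 = 3 * Real.log 2 := by
      rw [show (8:ℝ) = 2 ^ 3 by norm_num, Real.log_pow]
      norm_num
    have l5 := Real.log_two_gt_d9
    rw [l1, l3, l4] at l2
    have hn0 : (0:ℝ) ≤ n := Nat.cast_nonneg n
    nlinarith
  have hL0 : 0 ≤ Real.log (1 / r) := by
    have : (0:ℝ) ≤ n := Nat.cast_nonneg n
    linarith
  obtain ⟨L, hL⟩ : ∃ L : ℝ, L = Real.log (1 / r) := ⟨_, rfl⟩
  rw [← hL] at hlog hL0 hlong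
  have hr74 : 0 < r ^ (7/4 : ℝ) := Real.rpow_pos_of_pos hr0 _
  have hr49 : 0 < r ^ (49/4 : ℝ) := Real.rpow_pos_of_pos hr0 _
  have e49 : (r ^ (7/4 : ℝ)) ^ 7 = r ^ (49/4 : ℝ) := by
    rw [← Real.rpow_natCast, ← Real.rpow_mul hr0.le]
    norm_num
  have e14 : r ^ 14 = r ^ (49/4 : ℝ) * r ^ (7/4 : ℝ) := by
    rw [← Real.rpow_add hr0, ← Real.rpow_natCast]
    norm_num
  have hx49 : x ^ (49/4 : ℝ) ≤ 16 ^ 13 * r ^ (49/4 : ℝ) := by
    have h1 : x ^ (49/4 : ℝ) ≤ (16 * r) ^ (49/4 : ℝ) := Real.rpow_le_rpow hx0.le hx16 (by norm_num)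
    rw [Real.mul_rpow (by norm_num) hr0.le] at h1
    have h2 : (16:ℝ) ^ (49/4 : ℝ) ≤ 16 ^ 13 := by
      rw [← Real.rpow_natCast]
      exact Real.rpow_le_rpow_of_exponent_le (by norm_num) (by norm_num)
    exact h1.trans (mul_le_mul_of_nonneg_right h2 hr49.le)
  have hx14 : x ^ 14 ≤ 16 ^ 14 * (r ^ (49/4 : ℝ) * r ^ (7/4 : ℝ)) := by
    have h1 := pow_le_pow_left₀ hx0.le hx16 14
    rw [mul_pow, e14] at h1
    exact h1
  set A := K * 16 ^ 15 + 1 with hA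
  have hA1 : 1 ≤ A := by
    have : 0 ≤ K * 16 ^ 15 := by positivity
    rw [hA]; linarith
  have hT0 : 0 ≤ p.2 * ((t:ℝ) - s) := mul_nonneg hp.le (by linarith)
  have hsmall : r ^ (7/4 : ℝ) * L ≤ p.2 * ((t:ℝ) - s) := by
    have : 0 ≤ r ^ (7/4 : ℝ) * L := by positivity
    nlinarith
  have h2 : ((n:ℝ) + 1) * x ^ 14 ≤ 3 * 16 ^ 14 * (r ^ (49/4 : ℝ) * (p.2 * ((t:ℝ) - s))) := by
    calc ((n:ℝ) + 1) * x ^ 14 ≤ (3 * L) * (16 ^ 14 * (r ^ (49/4 : ℝ) * r ^ (7/4 : ℝ))) :=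
          mul_le_mul hlog hx14 (by positivity) (by positivity)
      _ = 3 * 16 ^ 14 * (r ^ (49/4 : ℝ) * (r ^ (7/4 : ℝ) * L)) := by ring
      _ ≤ 3 * 16 ^ 14 * (r ^ (49/4 : ℝ) * (p.2 * ((t:ℝ) - s))) :=
          mul_le_mul_of_nonneg_left (mul_le_mul_of_nonneg_left hsmall hr49.le) (by norm_num)
  have h3 : p.2 ^ 8 * En7 (x / 8) p.1 s t ≤
      K * 16 ^ 15 * (r ^ (49/4 : ℝ) * (p.2 * ((t:ℝ) - s))) := by
    refine hQ.trans ?_
    have h4 : x ^ (49/4 : ℝ) * (((t:ℝ) - s) * p.2) ≤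
        16 ^ 13 * (r ^ (49/4 : ℝ) * (p.2 * ((t:ℝ) - s))) := by
      have := mul_le_mul_of_nonneg_right hx49 hT0
      calc x ^ (49/4 : ℝ) * (((t:ℝ) - s) * p.2) = x ^ (49/4 : ℝ) * (p.2 * ((t:ℝ) - s)) := by ring
        _ ≤ 16 ^ 13 * r ^ (49/4 : ℝ) * (p.2 * ((t:ℝ) - s)) := this
        _ = _ := by ring
    have h5 : 0 ≤ r ^ (49/4 : ℝ) * (p.2 * ((t:ℝ) - s)) := by positivity
    rw [mul_assoc]
    refine mul_le_mul_of_nonneg_left ?_ hK.le
    calc x ^ (49/4 : ℝ) * (((t:ℝ) - s) * p.2) + ((n:ℝ) + 1) * x ^ 14 ≤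
        16 ^ 13 * (r ^ (49/4 : ℝ) * (p.2 * ((t:ℝ) - s))) +
        3 * 16 ^ 14 * (r ^ (49/4 : ℝ) * (p.2 * ((t:ℝ) - s))) := add_le_add h4 h2
      _ = 49 * 16 ^ 13 * (r ^ (49/4 : ℝ) * (p.2 * ((t:ℝ) - s))) := by ring
      _ ≤ 16 ^ 15 * (r ^ (49/4 : ℝ) * (p.2 * ((t:ℝ) - s))) :=
          mul_le_mul_of_nonneg_right (by norm_num) h5
  have h6 := oc7_le (f := p.1) (s := s) (t := t) (r := r) (r' := x / 8) (by positivity)
    (by linarith) p.2 hp.le
  refine h6.trans ?_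
  have h7 : p.2 * (p.2 ^ 7 * En7 (x / 8) p.1 s t) ≤
      p.2 * (K * 16 ^ 15 * (r ^ (49/4 : ℝ) * ((t:ℝ) - s))) := by
    calc p.2 * (p.2 ^ 7 * En7 (x / 8) p.1 s t) = p.2 ^ 8 * En7 (x / 8) p.1 s t := by ring
      _ ≤ _ := h3
      _ = _ := by ring
  have h8 := le_of_mul_le_mul_left h7 hp
  refine h8.trans ?_
  rw [mul_pow, e49]
  have h9 : K * 16 ^ 15 ≤ A ^ 7 := by
    have h10 : A ≤ A ^ 7 := by
      calc A = A ^ 1 := (pow_one A).symm
        _ ≤ A ^ 7 := pow_le_pow_right₀ hA1 (by norm_num)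
    have h11 : K * 16 ^ 15 ≤ A := by rw [hA]; linarith
    exact h11.trans h10
  have h12 : 0 ≤ r ^ (49/4 : ℝ) * ((t:ℝ) - s) := mul_nonneg hr49.le (by linarith)
  calc K * 16 ^ 15 * (r ^ (49/4 : ℝ) * ((t:ℝ) - s)) ≤ A ^ 7 * (r ^ (49/4 : ℝ) * ((t:ℝ) - s)) :=
        mul_le_mul_of_nonneg_right h9 h12
    _ = _ := by ring

end Pool.Agent.N481.EP
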