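import Pool.Agent.N481.EP.Det8
import Pool.Agent.H984R4.NP.EnergyC

/-!
The seventh moment of the occupation of small discs along pieces of the lattice curve.
-/

set_option autoImplicit false

namespace Pool.Agent.N481.EP

open H974 Finset H342P H984P H984N TH992.T TH992.L Y994.MC MeasureTheory

/-- a cutoff function: `1` on `(-∞, 1]`, `0` on `[2, ∞)` -/
noncomputable def chi (x : ℝ) : ℝ := max 0 (min 1 (2 - x))

theorem chi_cont : Continuous chi := by
  unfold chi
  fun_prop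

theorem chi_nonneg (x : ℝ) : 0 ≤ chi x := le_max_left _ _

theorem chi_le (x : ℝ) : chi x ≤ 1 := max_le zero_le_one (min_le_left _ _)

theorem chi_one {x : ℝ} (h : x ≤ 1) : chi x = 1 := by
  unfold chi
  rw [min_eq_left (by linarith), max_eq_right zero_le_one]

theorem chi_zero {x : ℝ} (h : 2 ≤ x) : chi x = 0 := by
  unfold chi
  rw [min_eq_right (by linarith), max_eq_left (by linarith)]

theorem chi_anti {x y : ℝ} (h : x ≤ y) : chi y ≤ chi x :=
  max_le_max le_rfl (min_le_min le_rfl (by linarith))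

/-- the time spent near `f u` by the piece between `s` and `t` -/
noncomputable def mm (r : ℝ) (f : C(unitInterval, ℂ)) (s t u : unitInterval) : ℝ :=
  ∫ v in Set.Icc s t, chi (dist (f u) (f v) / r)

/-- the seventh moment -/
noncomputable def En7 (r : ℝ) (f : C(unitInterval, ℂ)) (s t : unitInterval) : ℝ :=
  ∫ u in Set.Icc s t, (mm r f s t u) ^ 7

theorem mm_nonneg (r : ℝ) (f : C(unitInterval, ℂ)) (s t u : unitInterval) : 0 ≤ mm r f s t u :=
  integral_nonneg fun _ => chi_nonneg _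

theorem chi_int (r : ℝ) (f : C(unitInterval, ℂ)) (A : Set unitInterval) (u : unitInterval) :
    IntegrableOn (fun v => chi (dist (f u) (f v) / r)) A := by
  have hc : Continuous fun v => chi (dist (f u) (f v) / r) := by
    have := f.continuous
    exact chi_cont.comp ((continuous_const.dist this).div_const r)
  exact (hc.integrable_of_hasCompactSupport (HasCompactSupport.of_compactSpace _)).integrableOn

theorem mm_cont' (r : ℝ) (s t : unitInterval) :
    Continuous fun q : C(unitInterval, ℂ) × unitInterval => mm r q.1 s t q.2 := by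
  unfold mm
  refine continuous_of_dominated (F := fun (q : C(unitInterval, ℂ) × unitInterval)
    (v : unitInterval) => chi (dist (q.1 q.2) (q.1 v) / r)) (bound := fun _ => 1) ?_ ?_ ?_ ?_
  · intro q
    have hc : Continuous fun v => chi (dist (q.1 q.2) (q.1 v) / r) :=
      chi_cont.comp ((continuous_const.dist q.1.continuous).div_const r)
    exact hc.aestronglyMeasurable
  · intro q
    refine Filter.Eventually.of_forall fun v => ?_
    rw [Real.norm_eq_abs, abs_of_nonneg (chi_nonneg _)]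
    exact chi_le _
  · exact integrable_const _
  · refine Filter.Eventually.of_forall fun v => ?_
    refine chi_cont.comp (Continuous.div_const ?_ r)
    exact (continuous_fst.eval continuous_snd).dist (continuous_fst.eval continuous_const)

theorem mm_le_one (r : ℝ) (f : C(unitInterval, ℂ)) (s t u : unitInterval) : mm r f s t u ≤ 1 := by
  unfold mm
  have h := norm_setIntegral_le_of_norm_le_const (μ := (volume : Measure unitInterval))
    (s := Set.Icc s t) (f := fun v => chi (dist (f u) (f v) / r)) (C := 1)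
    (measure_lt_top _ _) (fun v _ => by
      rw [Real.norm_eq_abs, abs_of_nonneg (chi_nonneg _)]
      exact chi_le _)
  have h2 : (volume : Measure unitInterval).real (Set.Icc s t) ≤ 1 := by
    have := measureReal_mono (μ := (volume : Measure unitInterval)) (Set.subset_univ (Set.Icc s t))
    simp only [probReal_univ] at this
    exact this
  have h3 := (le_abs_self (∫ v in Set.Icc s t, chi (dist (f u) (f v) / r))).trans h
  linarith

theorem En7_cont (r : ℝ) (s t : unitInterval) : Continuous fun f => En7 r f s t := by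
  unfold En7
  have h := mm_cont' r s t
  refine continuous_of_dominated (F := fun (f : C(unitInterval, ℂ))
    (u : unitInterval) => (mm r f s t u) ^ 7) (bound := fun _ => 1) ?_ ?_ ?_ ?_
  · intro f
    exact ((h.comp (Continuous.prodMk_right f)).pow 7).aestronglyMeasurable
  · intro f
    refine Filter.Eventually.of_forall fun u => ?_
    rw [Real.norm_eq_abs, abs_of_nonneg (pow_nonneg (mm_nonneg _ _ _ _ _) 7)]
    exact pow_le_one₀ (mm_nonneg _ _ _ _ _) (mm_le_one _ _ _ _ _)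
  · exact integrable_const _
  · exact Filter.Eventually.of_forall fun u => (h.comp (Continuous.prodMk_left u)).pow 7

theorem mm_cont (r : ℝ) (f : C(unitInterval, ℂ)) (s t : unitInterval) :
    Continuous fun u => mm r f s t u := (mm_cont' r s t).comp (Continuous.prodMk_right f)

/-- pointwise bound on the lattice curve -/
theorem mm_curve {D : Dm} {F : Finset Edg} {δ : ℝ} (hδ : 0 < δ) {W : ℕ} (hW : 1 ≤ W)
    (hN : 0 < D.len F) {s t u : unitInterval} {r : ℝ} (hr : 0 < r) (hrW : 4 * r ≤ δ * W) :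
    mm r (pl (D.len F) (fun k => pos δ (D.walk F k))) s t u ≤
      (near D W F ⌊(s:ℝ) * D.len F⌋₊ ⌊(t:ℝ) * D.len F⌋₊ ⌊(u:ℝ) * D.len F⌋₊ : ℝ) / D.len F := by
  classical
  set N := D.len F with hNdef
  set p : ℕ → ℂ := fun k => pos δ (D.walk F k) with hp
  set f := pl N p with hf
  set k := ⌊(s:ℝ) * N⌋₊ with hk
  set l := ⌊(t:ℝ) * N⌋₊ with hl
  have hN' : (0:ℝ) < N := by exact_mod_cast hN
  have hst : ∀ j < N, dist (p j) (p (j + 1)) ≤ δ / 2 := fun j _ => by
    rw [hp]
    simp only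
    rw [walk_succ]
    exact pos_nxt hδ.le _ _
  -- a point and its node
  have hnode : ∀ v : unitInterval, dist (f v) (p ⌊(v:ℝ) * N⌋₊) ≤ δ / 2 := by
    intro v
    obtain ⟨i, h1, h2, h3⟩ := near_node hN (p := p) (le_refl v) (le_refl v) (η := δ / 2)
      (by positivity) hst
    have : i = ⌊(v:ℝ) * N⌋₊ := le_antisymm h2 h1
    rw [this] at h3
    exact h3
  set J : Finset ℕ := (Finset.Icc k l).filter
    (fun j => sd (D.walk F ⌊(u:ℝ) * N⌋₊).1 (D.walk F j).1 ≤ W) with hJ
  set A : Set unitInterval := ⋃ j ∈ J, EnergyC_I N j with hA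
  have hAm : MeasurableSet A := Finset.measurableSet_biUnion _ fun j _ => EnergyC_meas N j
  have hpt : ∀ v ∈ Set.Icc s t, chi (dist (f u) (f v) / r) ≤ A.indicator (fun _ => (1:ℝ)) v := by
    intro v hv
    by_cases hd : dist (f u) (f v) / r < 2
    · rw [div_lt_iff₀ hr] at hd
      have hvA : v ∈ A := by
        rw [hA, Set.mem_iUnion₂]
        have hv0 : 0 ≤ (v:ℝ) * N := mul_nonneg v.2.1 hN'.le
        refine ⟨⌊(v:ℝ) * N⌋₊, ?_, Nat.floor_le hv0, (Nat.lt_floor_add_one _).le⟩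
        rw [hJ, mem_filter, mem_Icc]
        refine ⟨⟨Nat.floor_mono (mul_le_mul_of_nonneg_right hv.1 hN'.le),
          Nat.floor_mono (mul_le_mul_of_nonneg_right hv.2 hN'.le)⟩, ?_⟩
        have h1 := le_dist_pos hδ.le (D.walk F ⌊(u:ℝ) * N⌋₊) (D.walk F ⌊(v:ℝ) * N⌋₊)
        have h2 := hnode u
        have h3 := hnode v
        have h4 : dist (p ⌊(u:ℝ) * N⌋₊) (p ⌊(v:ℝ) * N⌋₊) ≤ δ / 2 + dist (f u) (f v) + δ / 2 := by
          have a1 := dist_triangle4 (p ⌊(u:ℝ) * N⌋₊) (f u) (f v) (p ⌊(v:ℝ) * N⌋₊)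
          rw [dist_comm (p ⌊(u:ℝ) * N⌋₊) (f u)] at a1
          linarith
        have h5 : δ * (((sd (D.walk F ⌊(u:ℝ) * N⌋₊).1 (D.walk F ⌊(v:ℝ) * N⌋₊).1 : ℤ) : ℝ) - 1/2) ≤
            δ / 2 + dist (f u) (f v) + δ / 2 := h1.trans h4
        have hW1 : (1:ℝ) ≤ W := by exact_mod_cast hW
        by_contra hcon
        push Not at hcon
        have h6 : ((W:ℤ) : ℝ) + 1 ≤
            ((sd (D.walk F ⌊(u:ℝ) * N⌋₊).1 (D.walk F ⌊(v:ℝ) * N⌋₊).1 : ℤ) : ℝ) := by
          exact_mod_cast hcon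
        have h7 : δ * ((W:ℝ) + 1/2) ≤ δ / 2 + dist (f u) (f v) + δ / 2 := by
          refine le_trans (mul_le_mul_of_nonneg_left ?_ hδ.le) h5
          push_cast at h6
          linarith
        nlinarith
      rw [Set.indicator_of_mem hvA]
      exact chi_le _
    · push Not at hd
      rw [chi_zero hd]
      exact Set.indicator_nonneg (fun _ _ => zero_le_one) _
  have h1 : mm r f s t u ≤ ∫ v in Set.Icc s t, A.indicator (fun _ => (1:ℝ)) v := by
    unfold mm
    refine setIntegral_mono_on (chi_int r f _ u) ?_ measurableSet_Icc hpt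
    exact (integrable_const (1:ℝ)).indicator hAm |>.integrableOn
  have h2 : ∫ v in Set.Icc s t, A.indicator (fun _ => (1:ℝ)) v ≤
      (volume : Measure unitInterval).real A := by
    rw [setIntegral_indicator hAm, setIntegral_const, smul_eq_mul, mul_one]
    exact measureReal_mono Set.inter_subset_right (measure_ne_top _ _)
  have h3 : (volume : Measure unitInterval).real A ≤ ∑ j ∈ J, (1:ℝ) / N := by
    rw [hA]
    refine (measureReal_biUnion_finset_le J _).trans ?_
    exact sum_le_sum fun j _ => EnergyC_vol j hN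
  refine h1.trans (h2.trans (h3.trans (le_of_eq ?_)))
  rw [sum_const, nsmul_eq_mul, mul_one_div]
  rfl

/-- the bound for the seventh moment -/
theorem en7_curve {D : Dm} (hD : D.Ok) {F : Finset Edg} (hF : F ⊆ D.edges) {δ : ℝ} (hδ : 0 < δ)
    {W : ℕ} (hW : 1 ≤ W) {K : ℝ} (hK : 0 < K) {N0 : ℕ} (hG : GoodE D W K N0 F)
    {s t : unitInterval} (hst : s ≤ t) {r : ℝ} (hr : 0 < r) (hrW : 4 * r ≤ δ * W) :
    (δ ^ (7/4 : ℝ) * D.len F) ^ 8 * En7 r (pl (D.len F) (fun k => pos δ (D.walk F k))) s t ≤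
      (δ * W) ^ 14 * (K * ((((t:ℝ) - s) * (δ ^ (7/4 : ℝ) * D.len F) + 2 * δ ^ (7/4 : ℝ)) /
        (δ * W) ^ (7/4 : ℝ) + N0 + 9)) := by
  classical
  have hN := len_pos hD hF
  have hmm := fun u : unitInterval => mm_curve (D := D) (F := F) hδ hW hN (s := s) (t := t)
    (u := u) hr hrW
  set N := D.len F with hNdef
  set f := pl N (fun k => pos δ (D.walk F k)) with hf
  have hN' : (0:ℝ) < N := by exact_mod_cast hN
  have hWr : (0:ℝ) < W := by exact_mod_cast hW
  have hw : 0 < δ * W := by positivity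
  have hδp : 0 < δ ^ (7/4 : ℝ) := Real.rpow_pos_of_pos hδ _
  have hwp : 0 < (δ * W) ^ (7/4 : ℝ) := Real.rpow_pos_of_pos hw _
  have hst' : (s:ℝ) ≤ t := hst
  have hs0 : 0 ≤ (s:ℝ) * N := mul_nonneg s.2.1 hN'.le
  have ht0 : 0 ≤ (t:ℝ) * N := mul_nonneg t.2.1 hN'.le
  have ht1 : (t:ℝ) * N ≤ N := by nlinarith [t.2.2]
  have c1 := Nat.floor_le hs0
  have c2 := Nat.lt_floor_add_one ((s:ℝ) * N)
  have f1 := Nat.floor_le ht0
  have h : ⌊(s:ℝ) * N⌋₊ ≤ ⌊(t:ℝ) * N⌋₊ :=
    Nat.floor_mono (mul_le_mul_of_nonneg_right hst' hN'.le)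
  set k := ⌊(s:ℝ) * N⌋₊ with hk
  set l := ⌊(t:ℝ) * N⌋₊ with hl
  have hlN : l ≤ N := by
    have : (l:ℝ) ≤ N := f1.trans ht1
    exact_mod_cast this
  have g2 := hG k l h hlN
  have hkl : ((l - k + 1 : ℕ) : ℝ) = (l:ℝ) - k + 1 := by
    rw [Nat.cast_add, Nat.cast_sub h, Nat.cast_one]
  -- the integral
  have hE : En7 r f s t ≤ ∑ i ∈ Finset.Icc k l, ((near D W F k l i : ℝ) / N) ^ 7 * (1 / N) := by
    unfold En7
    have hb : ∀ u ∈ Set.Icc s t, (mm r f s t u) ^ 7 ≤ ∑ i ∈ Finset.Icc k l,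
        (EnergyC_I N i).indicator (fun _ => ((near D W F k l i : ℝ) / N) ^ 7) u := by
      intro u hu
      have hu0 : 0 ≤ (u:ℝ) * N := mul_nonneg u.2.1 hN'.le
      have hmem : ⌊(u:ℝ) * N⌋₊ ∈ Finset.Icc k l := by
        rw [mem_Icc]
        exact ⟨Nat.floor_mono (mul_le_mul_of_nonneg_right hu.1 hN'.le),
          Nat.floor_mono (mul_le_mul_of_nonneg_right hu.2 hN'.le)⟩
      have h1 : (mm r f s t u) ^ 7 ≤ ((near D W F k l ⌊(u:ℝ) * N⌋₊ : ℝ) / N) ^ 7 :=
        pow_le_pow_left₀ (mm_nonneg _ _ _ _ _) (hmm u) 7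
      refine h1.trans ?_
      have h2 : (EnergyC_I N ⌊(u:ℝ) * N⌋₊).indicator
          (fun _ => ((near D W F k l ⌊(u:ℝ) * N⌋₊ : ℝ) / N) ^ 7) u =
          ((near D W F k l ⌊(u:ℝ) * N⌋₊ : ℝ) / N) ^ 7 :=
        Set.indicator_of_mem (show u ∈ EnergyC_I N ⌊(u:ℝ) * N⌋₊ from
          ⟨Nat.floor_le hu0, (Nat.lt_floor_add_one _).le⟩) _
      rw [← h2]
      exact single_le_sum (f := fun i => (EnergyC_I N i).indicator
        (fun _ => ((near D W F k l i : ℝ) / N) ^ 7) u) (fun i _ =>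
          Set.indicator_nonneg (fun _ _ => by positivity) _) hmem
    have hi : ∀ i, Integrable ((EnergyC_I N i).indicator
        (fun _ : unitInterval => ((near D W F k l i : ℝ) / N) ^ 7)) :=
      fun i => (integrable_const _).indicator (EnergyC_meas N i)
    refine (setIntegral_mono_on ?_ (integrable_finsetSum _ fun i _ => hi i).integrableOn
      measurableSet_Icc hb).trans ?_
    · exact (((mm_cont r f s t).pow 7).integrable_of_hasCompactSupport
        (HasCompactSupport.of_compactSpace _)).integrableOn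
    · rw [integral_finsetSum _ fun i _ => (hi i).integrableOn]
      refine sum_le_sum fun i _ => ?_
      rw [setIntegral_indicator (EnergyC_meas N i), setIntegral_const, smul_eq_mul, mul_comm]
      refine mul_le_mul_of_nonneg_left ?_ (by positivity)
      exact (measureReal_mono Set.inter_subset_right (measure_ne_top _ _)).trans (EnergyC_vol i hN)
  have hE2 : ∑ i ∈ Finset.Icc k l, ((near D W F k l i : ℝ) / N) ^ 7 * (1 / N) =
      (∑ i ∈ Finset.Icc k l, (near D W F k l i : ℝ) ^ 7) / (N:ℝ) ^ 8 := by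
    rw [sum_div]
    refine sum_congr rfl fun i _ => ?_
    field_simp
  rw [hE2] at hE
  have e14 : (δ ^ (7/4 : ℝ)) ^ 8 = δ ^ 14 := by
    rw [← Real.rpow_natCast, ← Real.rpow_mul hδ.le, ← Real.rpow_natCast]
    norm_num
  calc (δ ^ (7/4 : ℝ) * N) ^ 8 * En7 r f s t
      ≤ (δ ^ (7/4 : ℝ) * N) ^ 8 *
        ((∑ i ∈ Finset.Icc k l, (near D W F k l i : ℝ) ^ 7) / (N:ℝ) ^ 8) :=
        mul_le_mul_of_nonneg_left hE (by positivity)
    _ = δ ^ 14 * ∑ i ∈ Finset.Icc k l, (near D W F k l i : ℝ) ^ 7 := by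
        rw [mul_pow, e14]
        field_simp
    _ ≤ δ ^ 14 * ((W : ℝ) ^ 14 * (K * (((l - k + 1 : ℕ) : ℝ) / (W : ℝ) ^ (7/4 : ℝ) + N0 + 9))) :=
        mul_le_mul_of_nonneg_left g2 (by positivity)
    _ = (δ * W) ^ 14 * (K * (((l:ℝ) - k + 1) / (W : ℝ) ^ (7/4 : ℝ) + N0 + 9)) := by
        rw [hkl]
        ring
    _ ≤ _ := by
        refine mul_le_mul_of_nonneg_left ?_ (by positivity)
        refine mul_le_mul_of_nonneg_left ?_ hK.le
        have h3 : ((l:ℝ) - k + 1) / (W : ℝ) ^ (7/4 : ℝ) ≤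
            (((t:ℝ) - s) * (δ ^ (7/4 : ℝ) * N) + 2 * δ ^ (7/4 : ℝ)) / (δ * W) ^ (7/4 : ℝ) := by
          have hWp : 0 < (W:ℝ) ^ (7/4 : ℝ) := Real.rpow_pos_of_pos hWr _
          rw [rpow_mul_74 hδ, div_le_div_iff₀ hWp (mul_pos hδp hWp)]
          have h5 : ((l:ℝ) - k + 1) ≤ ((t:ℝ) - s) * N + 2 := by nlinarith
          calc ((l:ℝ) - k + 1) * (δ ^ (7/4 : ℝ) * (W:ℝ) ^ (7/4 : ℝ)) ≤
              (((t:ℝ) - s) * N + 2) * (δ ^ (7/4 : ℝ) * (W:ℝ) ^ (7/4 : ℝ)) :=
                mul_le_mul_of_nonneg_right h5 (by positivity)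
            _ = (((t:ℝ) - s) * (δ ^ (7/4 : ℝ) * N) + 2 * δ ^ (7/4 : ℝ)) * (W:ℝ) ^ (7/4 : ℝ) := by ring
        linarith

end Pool.Agent.N481.EP
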