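import Pool.Agent.N481.EP.Up8
import Pool.Agent.Y994.MD.ScaleB

/-!
The seventh moment of the number of near times is bounded by the sum of the eighth powers.
-/

set_option autoImplicit false

namespace Pool.Agent.N481.EP

open H974 Finset H342P H984P H984N TH992.T TH992.L Y994.MC

open Classical in
/-- the number of times between `k` and `l` in the block `q` -/
noncomputable def cnt (D : Dm) (W : ℕ) (F : Finset Edg) (k l : ℕ) (q : Vtx) : ℕ :=
  ((Finset.Icc k l).filter (fun i => Y994.MC.bk W (D.walk F i).1 = q)).card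

open Classical in
/-- the number of times between `k` and `l` at distance at most `W` -/
noncomputable def near (D : Dm) (W : ℕ) (F : Finset Edg) (k l i : ℕ) : ℕ :=
  ((Finset.Icc k l).filter (fun j => sd (D.walk F i).1 (D.walk F j).1 ≤ W)).card

theorem cnt_le {D : Dm} (hD : D.Ok) {F : Finset Edg} (hF : F ⊆ D.edges) {W : ℕ} (hW : 1 ≤ W)
    {k l : ℕ} (hl : l ≤ D.len F) (q : Vtx) :
    (cnt D W F k l q : ℝ) ≤ (W : ℝ) ^ (7/4 : ℝ) * Yq D W q F := by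
  classical
  have hWp : (0 : ℝ) < (W : ℝ) ^ (7/4 : ℝ) := Real.rpow_pos_of_pos (by exact_mod_cast hW) _
  have e0 : (W : ℝ) ^ (7/4 : ℝ) * Yq D W q F = Nb (xs D) W (q.1 * W) (q.2 * W) F := by
    unfold Yq Yb
    have e : (2 - 1/4 : ℝ) = 7/4 := by norm_num
    rw [e, mul_div_cancel₀ _ hWp.ne']
  rw [e0]
  have e1 : (cnt D W F k l q : ℝ) = ∑ i ∈ (Finset.Icc k l).filter
      (fun i => Y994.MC.bk W (D.walk F i).1 = q), (1 : ℝ) := by
    rw [sum_const, nsmul_eq_mul, mul_one]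
    rfl
  have e2 : ∑ i ∈ (Finset.Icc k l).filter (fun i => Y994.MC.bk W (D.walk F i).1 = q), (1 : ℝ) ≤
      ∑ i ∈ Finset.range (D.len F + 1),
      (fun σ : St => if Y994.MC.bk W σ.1 = q then (1:ℝ) else 0) (D.walk F i) := by
    rw [sum_filter]
    refine sum_le_sum_of_subset_of_nonneg (fun i hi => ?_) fun i _ _ => by
      split_ifs <;> norm_num
    rw [mem_Icc] at hi
    rw [mem_range]
    omega
  rw [e1]
  refine e2.trans ?_
  rw [Moments_sum hD hF (fun σ : St => if Y994.MC.bk W σ.1 = q then (1:ℝ) else 0)]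
  unfold Dm.states
  rw [sum_product]
  have e3 : ∑ v ∈ Finset.Icc D.l D.r ×ˢ Finset.Icc 0 D.h, ∑ c ∈ (Finset.univ : Finset Q4),
      ind (D.Vis F (v, c)) * (if Y994.MC.bk W ((v, c) : St).1 = q then (1:ℝ) else 0) ≤
      ∑ v ∈ (Finset.Icc D.l D.r ×ˢ Finset.Icc 0 D.h).filter (fun v => Y994.MC.bk W v = q),
        xs D W v F := by
    rw [sum_filter]
    refine sum_le_sum fun v hv => ?_
    rw [mem_product, mem_Icc, mem_Icc] at hv
    by_cases h : Y994.MC.bk W v = q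
    · rw [if_pos h]
      simp only [h, if_true, mul_one]
      exact xs_vis hD hF W hv
    · rw [if_neg h]
      simp only [h, if_false, mul_zero, sum_const_zero]
      exact le_rfl
  refine e3.trans ?_
  unfold Nb
  refine sum_le_sum_of_subset_of_nonneg (fun v hv => ?_) fun v _ _ => xs_nonneg D W v F
  rw [mem_filter] at hv
  rw [← hv.2]
  exact bk_mem hW v

theorem cnt_zero {D : Dm} {F : Finset Edg} {W : ℕ} {k l : ℕ} {q : Vtx} (hq : q ∉ vb D W F k l) :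
    cnt D W F k l q = 0 := by
  classical
  unfold cnt
  rw [card_eq_zero, filter_eq_empty_iff]
  intro i hi h
  apply hq
  unfold vb
  rw [mem_vset]
  rw [mem_Icc] at hi
  exact ⟨i, hi.1, hi.2, h⟩

theorem near_le {D : Dm} {F : Finset Edg} {W : ℕ} (hW : 1 ≤ W) {k l i : ℕ} :
    near D W F k l i ≤ ∑ q ∈ nb9 (Y994.MC.bk W (D.walk F i).1), cnt D W F k l q := by
  classical
  have hW' : (1 : ℤ) ≤ W := by exact_mod_cast hW
  unfold near cnt
  refine le_trans (card_le_card (t := (nb9 (Y994.MC.bk W (D.walk F i).1)).biUnion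
    (fun q => (Finset.Icc k l).filter (fun i => Y994.MC.bk W (D.walk F i).1 = q)))
    fun j hj => ?_) card_biUnion_le
  rw [mem_filter] at hj
  rw [mem_biUnion]
  refine ⟨Y994.MC.bk W (D.walk F j).1, ?_, mem_filter.mpr ⟨hj.1, rfl⟩⟩
  rw [mem_nb9]
  exact bk_step hW' hj.2

theorem nb9_self (q : Vtx) : q ∈ nb9 q := by
  rw [mem_nb9]
  show H984H.sd q q ≤ 1
  rw [H984H.det_sd_eq]
  simp

theorem sum_near {D : Dm} {F : Finset Edg} {W : ℕ} (hW : 1 ≤ W) {k l : ℕ} :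
    ∑ i ∈ Finset.Icc k l, (near D W F k l i : ℝ) ^ 7 ≤
      9 ^ 8 * ∑ q ∈ vb D W F k l, (cnt D W F k l q : ℝ) ^ 8 := by
  classical
  set S : Vtx → ℝ := fun q => ∑ r ∈ nb9 q, (cnt D W F k l r : ℝ) with hS
  have hS0 : ∀ q, 0 ≤ S q := fun q => sum_nonneg fun _ _ => Nat.cast_nonneg _
  have h1 : ∑ i ∈ Finset.Icc k l, (near D W F k l i : ℝ) ^ 7 ≤
      ∑ i ∈ Finset.Icc k l, S (Y994.MC.bk W (D.walk F i).1) ^ 7 := by
    refine sum_le_sum fun i _ => pow_le_pow_left₀ (Nat.cast_nonneg _) ?_ 7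
    have h0 := near_le (D := D) (F := F) hW (k := k) (l := l) (i := i)
    have h1 : (near D W F k l i : ℝ) ≤ ((∑ q ∈ nb9 (Y994.MC.bk W (D.walk F i).1),
      cnt D W F k l q : ℕ) : ℝ) := by exact_mod_cast h0
    push_cast at h1
    exact h1
  have h2 : ∑ i ∈ Finset.Icc k l, S (Y994.MC.bk W (D.walk F i).1) ^ 7 =
      ∑ q ∈ vb D W F k l, (cnt D W F k l q : ℝ) * S q ^ 7 := by
    rw [← sum_fiberwise_of_maps_to (s := Finset.Icc k l) (t := vb D W F k l)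
      (g := fun i => Y994.MC.bk W (D.walk F i).1) (fun i hi => by
        unfold vb
        rw [mem_vset]
        rw [mem_Icc] at hi
        exact ⟨i, hi.1, hi.2, rfl⟩)]
    refine sum_congr rfl fun q _ => ?_
    rw [sum_congr rfl (g := fun _ => S q ^ 7) (fun i hi => by rw [(mem_filter.mp hi).2]),
      sum_const, nsmul_eq_mul]
    rfl
  have h3 : ∀ q, (cnt D W F k l q : ℝ) * S q ^ 7 ≤ 9 ^ 7 * ∑ r ∈ nb9 q, (cnt D W F k l r : ℝ) ^ 8 := by
    intro q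
    have h4 : (cnt D W F k l q : ℝ) ≤ S q := by
      rw [hS]
      exact single_le_sum (f := fun r => (cnt D W F k l r : ℝ)) (fun r _ => Nat.cast_nonneg _)
        (nb9_self q)
    have h5 : (cnt D W F k l q : ℝ) * S q ^ 7 ≤ S q ^ 8 := by
      calc (cnt D W F k l q : ℝ) * S q ^ 7 ≤ S q * S q ^ 7 :=
            mul_le_mul_of_nonneg_right h4 (pow_nonneg (hS0 q) 7)
        _ = S q ^ 8 := by ring
    have h7 := pow_sum_div_card_le_sum_pow (s := nb9 q) (f := fun r => (cnt D W F k l r : ℝ))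
      (fun r _ => Nat.cast_nonneg _) 7
    rw [card_nb9, div_le_iff₀ (by norm_num)] at h7
    refine h5.trans ?_
    simp only [Nat.cast_ofNat] at h7
    have h8 : S q ^ 8 = (∑ i ∈ nb9 q, (cnt D W F k l i : ℝ)) ^ (7 + 1) := rfl
    rw [h8, mul_comm]
    exact h7
  have h8 : ∑ q ∈ vb D W F k l, ∑ r ∈ nb9 q, (cnt D W F k l r : ℝ) ^ 8 ≤
      9 * ∑ q ∈ vb D W F k l, (cnt D W F k l q : ℝ) ^ 8 := by
    have h9 : ∑ q ∈ vb D W F k l, ∑ r ∈ nb9 q, (cnt D W F k l r : ℝ) ^ 8 =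
        ∑ q ∈ vb D W F k l, ∑ r ∈ (vb D W F k l).filter (fun r => r ∈ nb9 q),
          (cnt D W F k l r : ℝ) ^ 8 := by
      refine sum_congr rfl fun q _ => ?_
      symm
      refine sum_subset_zero_on_sdiff (fun r hr => (mem_filter.mp hr).2) (fun r hr => ?_)
        fun r _ => rfl
      rw [mem_sdiff, mem_filter] at hr
      have : r ∉ vb D W F k l := fun h => hr.2 ⟨h, hr.1⟩
      rw [cnt_zero this]
      norm_num
    rw [h9]
    have h10 : ∑ q ∈ vb D W F k l, ∑ r ∈ (vb D W F k l).filter (fun r => r ∈ nb9 q),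
          (cnt D W F k l r : ℝ) ^ 8 = ∑ r ∈ vb D W F k l,
          ∑ q ∈ (vb D W F k l).filter (fun q => r ∈ nb9 q), (cnt D W F k l r : ℝ) ^ 8 := by
      simp only [sum_filter]
      exact sum_comm
    rw [h10, mul_sum]
    refine sum_le_sum fun r _ => ?_
    rw [sum_const, nsmul_eq_mul]
    refine mul_le_mul_of_nonneg_right ?_ (by positivity)
    have h11 : (vb D W F k l).filter (fun q => r ∈ nb9 q) ⊆ nb9 r := fun q hq =>
      nb9_symm (mem_filter.mp hq).2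
    have h12 := card_le_card h11
    rw [card_nb9] at h12
    exact_mod_cast h12
  rw [h2] at h1
  refine h1.trans ((sum_le_sum fun q _ => h3 q).trans ?_)
  rw [← mul_sum]
  calc (9:ℝ) ^ 7 * ∑ q ∈ vb D W F k l, ∑ r ∈ nb9 q, (cnt D W F k l r : ℝ) ^ 8
      ≤ 9 ^ 7 * (9 * ∑ q ∈ vb D W F k l, (cnt D W F k l q : ℝ) ^ 8) :=
        mul_le_mul_of_nonneg_left h8 (by norm_num)
    _ = 9 ^ 8 * ∑ q ∈ vb D W F k l, (cnt D W F k l q : ℝ) ^ 8 := by ring

/-- The sum of the eighth powers is at most a multiple of the number of blocks, and the seventh moment of the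
number of near times is bounded accordingly, for all pieces. -/
def GoodE (D : Dm) (W : ℕ) (K : ℝ) (N0 : ℕ) (F : Finset Edg) : Prop :=
  ∀ k l : ℕ, k ≤ l → l ≤ D.len F → ∑ i ∈ Finset.Icc k l, (near D W F k l i : ℝ) ^ 7 ≤
    (W : ℝ) ^ 14 * (K * (((l - k + 1 : ℕ) : ℝ) / (W : ℝ) ^ (7/4 : ℝ) + N0 + 9))

theorem goodE_of {D : Dm} (hD : D.Ok) {F : Finset Edg} (hF : F ⊆ D.edges) {W : ℕ} (hW : 1 ≤ W)
    {l0 K1 K2 : ℝ} (hl0 : 0 < l0) (hK1 : 0 < K1) (hK2 : 0 < K2) {N0 Nm : ℕ} (hNm : D.len F + 1 ≤ Nm)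
    (hG : Y994.MD.GoodB D W K2 N0 F)
    (hn : ∀ q ∈ SB D W, ¬ Heavy8 D W l0 K1 N0 Nm q F) :
    GoodE D W (9 ^ 8 * l0 ^ 8 * K1 * (K2 + 2)) N0 F := by
  intro k l hkl hl
  have hWr : (0:ℝ) < (W:ℝ) := by exact_mod_cast hW
  have hWp : (0:ℝ) < (W:ℝ) ^ (7/4 : ℝ) := Real.rpow_pos_of_pos hWr _
  have h1 := sum_near (D := D) (F := F) hW (k := k) (l := l)
  have h2 : ∑ q ∈ vb D W F k l, (cnt D W F k l q : ℝ) ^ 8 ≤
      (W : ℝ) ^ 14 * l0 ^ 8 * ∑ q ∈ vb D W F k l, (Yq D W q F / l0) ^ 8 := by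
    rw [mul_sum]
    refine sum_le_sum fun q _ => ?_
    have h3 := pow_le_pow_left₀ (Nat.cast_nonneg _) (cnt_le hD hF hW hl (k := k) q) 8
    refine h3.trans (le_of_eq ?_)
    have e : ((W : ℝ) ^ (7/4 : ℝ)) ^ 8 = (W : ℝ) ^ 14 := by
      rw [← Real.rpow_natCast, ← Real.rpow_mul hWr.le, ← Real.rpow_natCast]
      norm_num
    rw [mul_pow, e]
    field_simp
  have h4 : ∑ q ∈ vb D W F k l, (Yq D W q F / l0) ^ 8 ≤
      K1 * ((max (vb D W F k l).card N0 : ℕ) : ℝ) := by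
    obtain ⟨g2, g3⟩ := vb_AS (D := D) (F := F) hW hkl
    have g4 := vb_card (D := D) (F := F) (W := W) (k := k) hl
    by_contra hcon
    push Not at hcon
    exact hn _ (bk_SB hD hF hW k) ⟨_, mem_range.mpr (by omega), _, g3, rfl, hcon.le⟩
  have h5 : ((max (vb D W F k l).card N0 : ℕ) : ℝ) ≤
      (K2 + 2) * (((l - k + 1 : ℕ) : ℝ) / (W : ℝ) ^ (7/4 : ℝ) + N0 + 9) := by
    have g1 := (hG k l hkl hl).2
    have g2 : 0 ≤ ((l - k + 1 : ℕ) : ℝ) / (W : ℝ) ^ (7/4 : ℝ) := by positivity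
    have g3 : (0:ℝ) ≤ (N0:ℝ) := Nat.cast_nonneg _
    have g4 : 0 ≤ K2 * N0 := by positivity
    push_cast
    refine max_le ?_ ?_
    · push_cast at g1 g2
      nlinarith
    · push_cast at g2
      nlinarith
  have hW14 : (0:ℝ) < (W:ℝ) ^ 14 := by positivity
  calc ∑ i ∈ Finset.Icc k l, (near D W F k l i : ℝ) ^ 7
      ≤ 9 ^ 8 * ∑ q ∈ vb D W F k l, (cnt D W F k l q : ℝ) ^ 8 := h1
    _ ≤ 9 ^ 8 * ((W : ℝ) ^ 14 * l0 ^ 8 * (K1 * ((K2 + 2) *
        (((l - k + 1 : ℕ) : ℝ) / (W : ℝ) ^ (7/4 : ℝ) + N0 + 9)))) := by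
        refine mul_le_mul_of_nonneg_left (h2.trans ?_) (by norm_num)
        refine mul_le_mul_of_nonneg_left (h4.trans ?_) (by positivity)
        exact mul_le_mul_of_nonneg_left h5 hK1.le
    _ = _ := by ring

theorem goodE_pr {c C : ℝ} (hc : 0 < c) (hC : 0 < C) (hL : LowA c (1/4)) (hU : TwoUp C (1/4)) :
    ∃ s K : ℝ, 0 < s ∧ 0 < K ∧ ∀ D : Dm, D.Ok → ∀ W : ℕ, 1 ≤ W → s ≤ W → 8 * (W:ℤ) ≤ -D.l →
      8 * (W:ℤ) ≤ D.r → 8 * (W:ℤ) ≤ D.h → ∀ N0 : ℕ,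
      P D.edges (fun F => ¬ GoodE D W K N0 F) ≤ ((SB D W).card : ℝ) * (38 * (1/2) ^ N0) := by
  obtain ⟨s, K2, hs, hK2, hB⟩ := Y994.MD.goodB_pr hc hC hL hU
  obtain ⟨l0, K1, hl0, hK1, hH⟩ := heavy8_pr hC hU
  refine ⟨s, 9 ^ 8 * l0 ^ 8 * K1 * (K2 + 2), hs, by positivity,
    fun D hD W hW1 hsW g1 g2 g3 N0 => ?_⟩
  obtain ⟨Nm, hNm⟩ := len_bdd D
  have hdet : ∀ F ⊆ D.edges, ¬ GoodE D W (9 ^ 8 * l0 ^ 8 * K1 * (K2 + 2)) N0 F →
      (¬ Y994.MD.GoodB D W K2 N0 F) ∨ ∃ q ∈ SB D W, Heavy8 D W l0 K1 N0 Nm q F := by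
    intro F hF hnot
    by_contra hcon
    push Not at hcon
    exact hnot (goodE_of hD hF hW1 hl0 hK1 hK2 (hNm F hF) hcon.1 hcon.2)
  refine (Pr_mono two_ok hdet).trans ?_
  refine (Pr_or_le two_ok _ _ _).trans ?_
  have h1 := hB D hD W hW1 hsW g1 g2 g3 N0
  have h2 : Pr (fun _ => (1/2:ℝ)) D.edges (fun F => ∃ q ∈ SB D W, Heavy8 D W l0 K1 N0 Nm q F) ≤
      ((SB D W).card : ℝ) * (18 * (1/2) ^ N0) := by
    refine (Pr_exists_le two_ok _ _ _).trans ?_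
    refine (sum_le_card_nsmul _ _ (18 * (1/2) ^ N0) fun q _ => hH D W hW1 N0 Nm q).trans ?_
    rw [nsmul_eq_mul]
  have e : ((SB D W).card : ℝ) * (38 * (1/2) ^ N0) = ((SB D W).card : ℝ) * (20 * (1/2) ^ N0) +
      ((SB D W).card : ℝ) * (18 * (1/2) ^ N0) := by ring
  rw [e]
  exact add_le_add h1 h2

end Pool.Agent.N481.EP
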