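import Mathlib

/-!
Energies with respect to nonincreasing kernels and correlation integrals of order `r ^ (7/4)`.
-/

set_option autoImplicit false

namespace Pool.Agent.N481.EP

open MeasureTheory Filter Topology Metric Set ENNReal

/-- The `k`-energy of a measure. -/
noncomputable def energy (k : ℝ → ℝ≥0∞) (ν : Measure ℂ) : ℝ≥0∞ :=
  ∫⁻ x, ∫⁻ y, k (dist x y) ∂ν ∂ν

/-- the correlation integral -/
noncomputable def GG (ν : Measure ℂ) (r : ℝ) : ℝ≥0∞ := ∫⁻ x, ν (closedBall x r) ∂ν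

/-- the integral test -/
noncomputable def test (k : ℝ → ℝ≥0∞) : ℝ≥0∞ := ∫⁻ r in Ioo (0:ℝ) 1, k r * ENNReal.ofReal (r ^ (3/4 : ℝ))

theorem cball_ind (ν : Measure ℂ) (ρ : ℝ) (x : ℂ) (a : ℝ≥0∞) :
    ∫⁻ y, (if dist x y ≤ ρ then a else 0) ∂ν = a * ν (closedBall x ρ) := by
  have e : (fun y => if dist x y ≤ ρ then a else 0) = (closedBall x ρ).indicator (fun _ => a) := by
    funext y
    by_cases h : dist x y ≤ ρ
    · rw [if_pos h, indicator_of_mem (show y ∈ closedBall x ρ by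
        rw [mem_closedBall, dist_comm]; exact h)]
    · rw [if_neg h, indicator_of_notMem (show y ∉ closedBall x ρ by
        rw [mem_closedBall, dist_comm]; exact h)]
  rw [e, lintegral_indicator isClosed_closedBall.measurableSet, lintegral_const,
    Measure.restrict_apply MeasurableSet.univ, univ_inter]

theorem meas_cb (ν : Measure ℂ) [IsFiniteMeasure ν] (ρ : ℝ) :
    Measurable fun z : ℂ => ν (closedBall z ρ) := by
  have hS : MeasurableSet {q : ℂ × ℂ | dist q.2 q.1 ≤ ρ} :=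
    (isClosed_le (by fun_prop) continuous_const).measurableSet
  exact measurable_measure_prodMk_left hS

theorem meas_if (ρ : ℝ) (a : ℝ≥0∞) (x : ℂ) :
    Measurable fun y : ℂ => if dist x y ≤ ρ then a else 0 := by
  refine Measurable.ite ?_ measurable_const measurable_const
  exact (isClosed_le (by fun_prop) continuous_const).measurableSet

theorem GG_const (ν : Measure ℂ) [IsFiniteMeasure ν] (ρ : ℝ) (a : ℝ≥0∞) :
    ∫⁻ x, ∫⁻ y, (if dist x y ≤ ρ then a else 0) ∂ν ∂ν = a * GG ν ρ := by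
  simp only [cball_ind]
  unfold GG
  rw [lintegral_const_mul _ (meas_cb ν ρ)]

/-- finite sums of truncations -/
theorem sum_le_energy {k : ℝ → ℝ≥0∞} {ν : Measure ℂ} [IsFiniteMeasure ν] (M : ℕ) (a : ℕ → ℝ≥0∞)
    (ρ : ℕ → ℝ) (h : ∀ d : ℝ, 0 ≤ d → ∑ m ∈ Finset.range M, (if d ≤ ρ m then a m else 0) ≤ k d) :
    ∑ m ∈ Finset.range M, a m * GG ν (ρ m) ≤ energy k ν := by
  unfold energy
  calc ∑ m ∈ Finset.range M, a m * GG ν (ρ m)
      = ∑ m ∈ Finset.range M, ∫⁻ x, a m * ν (closedBall x (ρ m)) ∂ν := by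
        refine Finset.sum_congr rfl fun m _ => ?_
        unfold GG
        rw [lintegral_const_mul _ (meas_cb ν _)]
    _ = ∫⁻ x, ∑ m ∈ Finset.range M, a m * ν (closedBall x (ρ m)) ∂ν := by
        rw [lintegral_finsetSum]
        intro m _
        exact (meas_cb ν _).const_mul _
    _ ≤ ∫⁻ x, ∫⁻ y, k (dist x y) ∂ν ∂ν := by
        refine lintegral_mono fun x => ?_
        calc ∑ m ∈ Finset.range M, a m * ν (closedBall x (ρ m))
            = ∑ m ∈ Finset.range M, ∫⁻ y, (if dist x y ≤ ρ m then a m else 0) ∂ν := by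
              refine Finset.sum_congr rfl fun m _ => ?_
              rw [cball_ind]
          _ = ∫⁻ y, ∑ m ∈ Finset.range M, (if dist x y ≤ ρ m then a m else 0) ∂ν := by
              rw [lintegral_finsetSum]
              intro m _
              exact meas_if _ _ _
          _ ≤ ∫⁻ y, k (dist x y) ∂ν := lintegral_mono fun y => h _ dist_nonneg

/-- the telescoping sum -/
theorem tele {k : ℝ → ℝ≥0∞} (hk : AntitoneOn k (Ici 0)) {r : ℕ → ℝ} (hr : Antitone r)
    (hr0 : ∀ n, 0 ≤ r n) {d : ℝ} (hd : 0 ≤ d) (M : ℕ) :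
    ∑ m ∈ Finset.range M, (if d ≤ r (m + 1) then k (r (m + 1)) - k (r m) else 0) ≤ k d := by
  induction M with
  | zero => simp
  | succ M ih =>
    by_cases h : d ≤ r (M + 1)
    · have h1 : ∀ N ≤ M + 1, ∑ m ∈ Finset.range N, (if d ≤ r (m + 1) then k (r (m + 1)) - k (r m)
          else 0) ≤ k (r N) := by
        intro N
        induction N with
        | zero => intro _; simp
        | succ N ihN =>
          intro hN
          have h2 : d ≤ r (N + 1) := h.trans (hr hN)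
          rw [Finset.sum_range_succ, if_pos h2]
          have h3 := ihN (by omega)
          have h4 : k (r N) ≤ k (r (N + 1)) := hk (hr0 _) (hr0 _) (hr (by omega))
          calc _ ≤ k (r N) + (k (r (N + 1)) - k (r N)) := by gcongr
            _ = k (r (N + 1)) := add_tsub_cancel_of_le h4
      exact (h1 (M + 1) le_rfl).trans (hk hd (hr0 _) h)
    · rw [Finset.sum_range_succ, if_neg h, add_zero]
      exact ih

theorem abel {q a0 : ℝ} (K : ℕ → ℝ) (M : ℕ) :
    (1 - q) * ∑ n ∈ Finset.range (M + 1), K n * (a0 * q ^ n) + K M * (a0 * q ^ (M + 1)) =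
      K 0 * a0 + ∑ m ∈ Finset.range M, (K (m + 1) - K m) * (a0 * q ^ (m + 1)) := by
  induction M with
  | zero => simp; ring
  | succ M ih =>
    rw [Finset.sum_range_succ _ (M + 1),
      Finset.sum_range_succ (fun m => (K (m + 1) - K m) * (a0 * q ^ (m + 1))) M, ← add_assoc, ← ih]
    ring

theorem half_rpow (r0 : ℝ) (h : 0 < r0) (n : ℕ) :
    (r0 * (1/2) ^ n) ^ (7/4 : ℝ) = r0 ^ (7/4 : ℝ) * (((1/2:ℝ) ^ (7/4 : ℝ)) ^ n) := by
  rw [Real.mul_rpow h.le (by positivity)]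
  congr 1
  rw [← Real.rpow_natCast ((1/2:ℝ)) n, ← Real.rpow_mul (by norm_num), mul_comm (n:ℝ),
    Real.rpow_mul (by norm_num), Real.rpow_natCast]

theorem q_bounds : (0:ℝ) < (1/2:ℝ) ^ (7/4 : ℝ) ∧ (1/2:ℝ) ^ (7/4 : ℝ) ≤ 1/2 ∧
    1/4 ≤ (1/2:ℝ) ^ (7/4 : ℝ) := by
  refine ⟨by positivity, ?_, ?_⟩
  · calc (1/2:ℝ) ^ (7/4 : ℝ) ≤ (1/2:ℝ) ^ (1 : ℝ) :=
        Real.rpow_le_rpow_of_exponent_ge (by norm_num) (by norm_num) (by norm_num)
      _ = 1/2 := Real.rpow_one _
  · calc (1/4:ℝ) = (1/2:ℝ) ^ (2 : ℝ) := by norm_num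
      _ ≤ (1/2:ℝ) ^ (7/4 : ℝ) :=
        Real.rpow_le_rpow_of_exponent_ge (by norm_num) (by norm_num) (by norm_num)

/-- the dyadic intervals -/
theorem Ioc_union (r0 : ℝ) (h : 0 < r0) :
    Ioc (0:ℝ) r0 ⊆ ⋃ n : ℕ, Ioc (r0 * (1/2) ^ (n + 1)) (r0 * (1/2) ^ n) := by
  intro x hx
  obtain ⟨n, h1, h2⟩ := exists_nat_pow_near_of_lt_one (x := x / r0) (y := (1/2:ℝ))
    (by have := hx.1; positivity) (by rw [div_le_one h]; exact hx.2) (by norm_num) (by norm_num)
  rw [mem_iUnion]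
  refine ⟨n, ?_, ?_⟩
  · rw [lt_div_iff₀ h] at h1
    linarith
  · rw [div_le_iff₀ h] at h2
    linarith

/-- Finite energy implies that the integral is finite. -/
theorem test_of_energy {k : ℝ → ℝ≥0∞} (hk : AntitoneOn k (Ici 0)) {ν : Measure ℂ}
    [IsFiniteMeasure ν] {c r1 : ℝ} (hc : 0 < c) (hr1 : 0 < r1)
    (hG : ∀ r : ℝ, 0 < r → r < r1 → ENNReal.ofReal (c * r ^ (7/4 : ℝ)) ≤ GG ν r)
    (hE : energy k ν ≠ ⊤) : test k ≠ ⊤ := by
  obtain ⟨r0, hr0, hr0r, hr01⟩ : ∃ r0 : ℝ, 0 < r0 ∧ r0 < r1 ∧ r0 < 1 :=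
    ⟨min r1 1 / 2, by positivity, by
      have := min_le_left r1 1
      linarith, by
      have := min_le_right r1 1
      linarith⟩
  have hfin : ∀ r : ℝ, 0 < r → r < r1 → k r ≠ ⊤ := by
    intro r h1 h2 hcon
    have h3 := sum_le_energy (k := k) (ν := ν) 1 (fun _ => k r) (fun _ => r) (fun d hd => by
      rw [Finset.sum_range_one]
      split_ifs with h
      · exact hk hd h1.le h
      · exact zero_le)
    rw [Finset.sum_range_one, hcon, ENNReal.top_mul] at h3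
    · exact hE (top_le_iff.mp h3)
    · have h4 := hG r h1 h2
      have : 0 < ENNReal.ofReal (c * r ^ (7/4 : ℝ)) := by
        rw [ENNReal.ofReal_pos]
        have := Real.rpow_pos_of_pos h1 (7/4 : ℝ)
        positivity
      exact (this.trans_le h4).ne'
  obtain ⟨ρ, hρ⟩ : ∃ ρ : ℕ → ℝ, ρ = fun n => r0 * (1/2) ^ n := ⟨_, rfl⟩
  have hρ0 : ∀ n, 0 < ρ n := fun n => by rw [hρ]; positivity
  have hρa : Antitone ρ := by
    intro m n hmn
    rw [hρ]
    exact mul_le_mul_of_nonneg_left (pow_le_pow_of_le_one (by norm_num) (by norm_num) hmn) hr0.le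
  have hρr : ∀ n, ρ n < r1 := fun n => (hρa (Nat.zero_le n)).trans_lt (by rw [hρ]; simpa using hr0r)
  obtain ⟨q, hq⟩ : ∃ q : ℝ, q = (1/2:ℝ) ^ (7/4 : ℝ) := ⟨_, rfl⟩
  obtain ⟨q0, q1, q2⟩ := q_bounds
  rw [← hq] at q0 q1 q2
  obtain ⟨a0, ha0⟩ : ∃ a0 : ℝ, a0 = r0 ^ (7/4 : ℝ) := ⟨_, rfl⟩
  have ha0p : 0 < a0 := by rw [ha0]; exact Real.rpow_pos_of_pos hr0 _
  have hρ7 : ∀ n, ρ n ^ (7/4 : ℝ) = a0 * q ^ n := fun n => by
    rw [hρ, ha0, hq]
    exact half_rpow r0 hr0 n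
  obtain ⟨K, hK⟩ : ∃ K : ℕ → ℝ, K = fun n => (k (ρ n)).toReal := ⟨_, rfl⟩
  have hK' : ∀ n, ENNReal.ofReal (K n) = k (ρ n) := fun n => by
    rw [hK]
    exact ENNReal.ofReal_toReal (hfin _ (hρ0 n) (hρr n))
  have hK0 : ∀ n, 0 ≤ K n := fun n => by rw [hK]; exact ENNReal.toReal_nonneg
  have hKm : ∀ n, K n ≤ K (n + 1) := fun n => by
    rw [hK]
    exact ENNReal.toReal_mono (hfin _ (hρ0 _) (hρr _)) (hk (hρ0 _).le (hρ0 _).le (hρa (by omega)))
  -- the sums
  have hsum : ∀ M : ℕ, ∑ m ∈ Finset.range M, (K (m + 1) - K m) * (a0 * q ^ (m + 1)) ≤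
      (energy k ν).toReal / c := by
    intro M
    have h1 := sum_le_energy (k := k) (ν := ν) M (fun m => k (ρ (m + 1)) - k (ρ m))
      (fun m => ρ (m + 1)) (fun d hd => tele hk hρa (fun n => (hρ0 n).le) hd M)
    have h2 : ∑ m ∈ Finset.range M, ENNReal.ofReal ((K (m + 1) - K m) * (c * (a0 * q ^ (m + 1)))) ≤
        energy k ν := by
      refine le_trans (Finset.sum_le_sum fun m _ => ?_) h1
      rw [ENNReal.ofReal_mul (by have := hKm m; linarith), ENNReal.ofReal_sub _ (hK0 m), hK', hK']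
      have h3 := hG _ (hρ0 (m + 1)) (hρr (m + 1))
      rw [hρ7] at h3
      gcongr
    rw [← ENNReal.ofReal_sum_of_nonneg (fun m _ => by
      have := hKm m
      have : 0 ≤ K (m + 1) - K m := by linarith
      positivity)] at h2
    have h3 := (ENNReal.ofReal_le_iff_le_toReal hE).mp h2
    rw [le_div_iff₀ hc, Finset.sum_mul]
    refine le_trans (le_of_eq (Finset.sum_congr rfl fun m _ => ?_)) h3
    ring
  have hbd : ∀ M : ℕ, ∑ n ∈ Finset.range M, K n * (a0 * q ^ n) ≤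
      2 * (K 0 * a0 + (energy k ν).toReal / c) := by
    intro M
    have h1 := abel (q := q) (a0 := a0) K M
    have h2 := hsum M
    have h3 : 0 ≤ K M * (a0 * q ^ (M + 1)) := mul_nonneg (hK0 M) (by positivity)
    have h4 : (1 - q) * ∑ n ∈ Finset.range (M + 1), K n * (a0 * q ^ n) ≤
        K 0 * a0 + (energy k ν).toReal / c := by linarith
    have h5 : ∑ n ∈ Finset.range M, K n * (a0 * q ^ n) ≤
        ∑ n ∈ Finset.range (M + 1), K n * (a0 * q ^ n) := by
      rw [Finset.sum_range_succ]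
      have : 0 ≤ K M * (a0 * q ^ M) := mul_nonneg (hK0 M) (by positivity)
      linarith
    have h6 : 0 ≤ ∑ n ∈ Finset.range (M + 1), K n * (a0 * q ^ n) :=
      Finset.sum_nonneg fun n _ => mul_nonneg (hK0 n) (by positivity)
    nlinarith
  -- the integral
  obtain ⟨B, hB⟩ : ∃ B : ℝ, B = 2 * (K 0 * a0 + (energy k ν).toReal / c) := ⟨_, rfl⟩
  have hpiece : ∀ n : ℕ, ∫⁻ r in Ioc (ρ (n + 1)) (ρ n), k r * ENNReal.ofReal (r ^ (3/4 : ℝ)) ≤
      ENNReal.ofReal (4 * (K (n + 1) * (a0 * q ^ (n + 1)))) := by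
    intro n
    have h1 : ∫⁻ r in Ioc (ρ (n + 1)) (ρ n), k r * ENNReal.ofReal (r ^ (3/4 : ℝ)) ≤
        ∫⁻ r in Ioc (ρ (n + 1)) (ρ n), ENNReal.ofReal (K (n + 1) * ρ n ^ (3/4 : ℝ)) := by
      refine setLIntegral_mono measurable_const fun r hr => ?_
      have hrp : 0 < r := (hρ0 _).trans hr.1
      rw [ENNReal.ofReal_mul (hK0 _), hK']
      exact mul_le_mul' (hk (hρ0 _).le hrp.le hr.1.le)
        (ENNReal.ofReal_le_ofReal (Real.rpow_le_rpow hrp.le hr.2 (by norm_num)))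
    refine h1.trans ?_
    rw [lintegral_const, Measure.restrict_apply MeasurableSet.univ, univ_inter, Real.volume_Ioc,
      ← ENNReal.ofReal_mul (mul_nonneg (hK0 _) (Real.rpow_nonneg (hρ0 _).le _))]
    refine ENNReal.ofReal_le_ofReal ?_
    have e1 : ρ n ^ (3/4 : ℝ) * ρ n = ρ n ^ (7/4 : ℝ) := by
      nth_rewrite 2 [← Real.rpow_one (ρ n)]
      rw [← Real.rpow_add (hρ0 n)]
      norm_num
    have h2 : ρ n - ρ (n + 1) ≤ ρ n := by linarith [hρ0 (n + 1)]
    have h3 : 0 ≤ K (n + 1) * ρ n ^ (3/4 : ℝ) := mul_nonneg (hK0 _) (Real.rpow_nonneg (hρ0 _).le _)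
    calc K (n + 1) * ρ n ^ (3/4 : ℝ) * (ρ n - ρ (n + 1)) ≤ K (n + 1) * ρ n ^ (3/4 : ℝ) * ρ n :=
          mul_le_mul_of_nonneg_left h2 h3
      _ = K (n + 1) * (ρ n ^ (3/4 : ℝ) * ρ n) := by ring
      _ = K (n + 1) * (a0 * q ^ n) := by rw [e1, hρ7]
      _ ≤ K (n + 1) * (4 * (a0 * q ^ (n + 1))) := by
          refine mul_le_mul_of_nonneg_left ?_ (hK0 _)
          have h4 : 0 < a0 * q ^ n := by positivity
          rw [pow_succ]
          nlinarith
      _ = 4 * (K (n + 1) * (a0 * q ^ (n + 1))) := by ring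
  have hin : ∫⁻ r in Ioc 0 r0, k r * ENNReal.ofReal (r ^ (3/4 : ℝ)) ≤ ENNReal.ofReal (4 * B) := by
    have h1 : ∫⁻ r in Ioc 0 r0, k r * ENNReal.ofReal (r ^ (3/4 : ℝ)) ≤
        ∑' n, ∫⁻ r in Ioc (ρ (n + 1)) (ρ n), k r * ENNReal.ofReal (r ^ (3/4 : ℝ)) := by
      refine (lintegral_mono_set (Ioc_union r0 hr0)).trans ?_
      have := lintegral_iUnion_le (fun n : ℕ => Ioc (r0 * (1/2) ^ (n + 1)) (r0 * (1/2) ^ n))
        (fun r => k r * ENNReal.ofReal (r ^ (3/4 : ℝ))) (μ := volume)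
      rw [hρ]
      exact this
    refine h1.trans ((ENNReal.tsum_le_tsum hpiece).trans ?_)
    refine ENNReal.tsum_le_of_sum_range_le fun N => ?_
    rw [← ENNReal.ofReal_sum_of_nonneg (fun m _ => mul_nonneg (by norm_num)
      (mul_nonneg (hK0 _) (by positivity)))]
    refine ENNReal.ofReal_le_ofReal ?_
    rw [← Finset.mul_sum]
    refine mul_le_mul_of_nonneg_left ?_ (by norm_num)
    have h2 := hbd (N + 1)
    rw [Finset.sum_range_succ' (fun n => K n * (a0 * q ^ n))] at h2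
    have h3 : 0 ≤ K 0 * (a0 * q ^ 0) := mul_nonneg (hK0 0) (by positivity)
    rw [hB]
    linarith
  have hout : ∫⁻ r in Ioo r0 1, k r * ENNReal.ofReal (r ^ (3/4 : ℝ)) ≤ k r0 := by
    have h1 : ∫⁻ r in Ioo r0 1, k r * ENNReal.ofReal (r ^ (3/4 : ℝ)) ≤
        ∫⁻ _ in Ioo r0 1, k r0 := by
      refine setLIntegral_mono measurable_const fun r hr => ?_
      have hrp : 0 < r := hr0.trans hr.1
      calc k r * ENNReal.ofReal (r ^ (3/4 : ℝ)) ≤ k r0 * 1 := by
            refine mul_le_mul' (hk hr0.le hrp.le hr.1.le) ?_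
            rw [← ENNReal.ofReal_one]
            exact ENNReal.ofReal_le_ofReal (Real.rpow_le_one hrp.le hr.2.le (by norm_num))
        _ = k r0 := mul_one _
    refine h1.trans ?_
    rw [lintegral_const, Measure.restrict_apply MeasurableSet.univ, univ_inter, Real.volume_Ioo]
    calc k r0 * ENNReal.ofReal (1 - r0) ≤ k r0 * 1 := by
          gcongr
          rw [← ENNReal.ofReal_one]
          exact ENNReal.ofReal_le_ofReal (by linarith)
      _ = k r0 := mul_one _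
  have htot : test k ≤ ENNReal.ofReal (4 * B) + k r0 := by
    unfold test
    have h1 : Ioo (0:ℝ) 1 ⊆ Ioc 0 r0 ∪ Ioo r0 1 := by
      intro x hx
      rcases le_or_gt x r0 with h | h
      · exact Or.inl ⟨hx.1, h⟩
      · exact Or.inr ⟨h, hx.2⟩
    refine (lintegral_mono_set h1).trans ((lintegral_union_le _ _ _).trans ?_)
    exact add_le_add hin hout
  refine (lt_of_le_of_lt htot ?_).ne
  exact ENNReal.add_lt_top.mpr ⟨ENNReal.ofReal_lt_top, (hfin r0 hr0 hr0r).lt_top⟩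

/-- If the integral is finite, so is the energy. -/
theorem energy_of_test {k : ℝ → ℝ≥0∞} (hk : AntitoneOn k (Ici 0)) {ν : Measure ℂ}
    [IsFiniteMeasure ν] {c r1 : ℝ} (hc : 0 < c) (hr1 : 0 < r1)
    (hG : ∀ r : ℝ, 0 < r → r < r1 → GG ν r ≤ ENNReal.ofReal (c * r ^ (7/4 : ℝ)))
    (hT : test k ≠ ⊤) : energy k ν ≠ ⊤ := by
  obtain ⟨r0, hr0, hr0r, hr01⟩ : ∃ r0 : ℝ, 0 < r0 ∧ r0 < r1 ∧ r0 < 1 :=
    ⟨min r1 1 / 2, by positivity, by
      have := min_le_left r1 1
      linarith, by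
      have := min_le_right r1 1
      linarith⟩
  obtain ⟨ρ, hρ⟩ : ∃ ρ : ℕ → ℝ, ρ = fun n => r0 * (1/2) ^ n := ⟨_, rfl⟩
  have hρ0 : ∀ n, 0 < ρ n := fun n => by rw [hρ]; positivity
  have hρa : Antitone ρ := by
    intro m n hmn
    rw [hρ]
    exact mul_le_mul_of_nonneg_left (pow_le_pow_of_le_one (by norm_num) (by norm_num) hmn) hr0.le
  have hρr : ∀ n, ρ n < r1 := fun n => (hρa (Nat.zero_le n)).trans_lt (by rw [hρ]; simpa using hr0r)
  have hρ1 : ∀ n, ρ n < 1 := fun n => (hρa (Nat.zero_le n)).trans_lt (by rw [hρ]; simpa using hr01)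
  have hhalf : ∀ n, ρ (n + 1) = ρ n / 2 := fun n => by rw [hρ]; simp only [pow_succ]; ring
  -- pieces of the integral from below
  have hlow : ∀ n : ℕ, k (ρ n) * ENNReal.ofReal (ρ (n + 1) ^ (7/4 : ℝ)) ≤
      ∫⁻ r in Ioo (ρ (n + 1)) (ρ n), k r * ENNReal.ofReal (r ^ (3/4 : ℝ)) := by
    intro n
    have e1 : ρ (n + 1) ^ (7/4 : ℝ) = ρ (n + 1) ^ (3/4 : ℝ) * (ρ n - ρ (n + 1)) := by
      have e2 : ρ n - ρ (n + 1) = ρ (n + 1) := by rw [hhalf]; ring
      rw [e2]
      nth_rewrite 3 [← Real.rpow_one (ρ (n + 1))]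
      rw [← Real.rpow_add (hρ0 _)]
      norm_num
    rw [e1, ENNReal.ofReal_mul (Real.rpow_nonneg (hρ0 _).le _), ← mul_assoc, ← Real.volume_Ioo]
    have h1 : ∫⁻ _ in Ioo (ρ (n + 1)) (ρ n), k (ρ n) * ENNReal.ofReal (ρ (n + 1) ^ (3/4 : ℝ)) ≤
        ∫⁻ r in Ioo (ρ (n + 1)) (ρ n), k r * ENNReal.ofReal (r ^ (3/4 : ℝ)) := by
      refine setLIntegral_mono' measurableSet_Ioo fun r hr => ?_
      have hrp : 0 < r := (hρ0 _).trans hr.1
      exact mul_le_mul' (hk hrp.le (hρ0 _).le hr.2.le)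
        (ENNReal.ofReal_le_ofReal (Real.rpow_le_rpow (hρ0 _).le hr.1.le (by norm_num)))
    rw [lintegral_const, Measure.restrict_apply MeasurableSet.univ, univ_inter] at h1
    exact h1
  have hlowsum : ∑' n, k (ρ n) * ENNReal.ofReal (ρ (n + 1) ^ (7/4 : ℝ)) ≤ test k := by
    refine (ENNReal.tsum_le_tsum hlow).trans ?_
    have hd : Pairwise (Function.onFun Disjoint fun n : ℕ => Ioo (ρ (n + 1)) (ρ n)) := by
      intro m n hmn
      show Disjoint (Ioo (ρ (m + 1)) (ρ m)) (Ioo (ρ (n + 1)) (ρ n))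
      rw [Set.disjoint_left]
      intro x hx hy
      rcases lt_or_gt_of_ne hmn with h | h
      · have := hρa (show m + 1 ≤ n by omega)
        linarith [hx.1, hy.2]
      · have := hρa (show n + 1 ≤ m by omega)
        linarith [hy.1, hx.2]
    rw [← lintegral_iUnion (fun n => measurableSet_Ioo) hd]
    unfold test
    refine lintegral_mono_set ?_
    intro x hx
    rw [mem_iUnion] at hx
    obtain ⟨n, hn⟩ := hx
    exact ⟨(hρ0 _).trans hn.1, hn.2.trans (hρ1 n)⟩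
  have hkfin : ∀ n, k (ρ n) ≠ ⊤ := by
    intro n hcon
    have h1 := (ENNReal.le_tsum n).trans hlowsum
    rw [hcon, ENNReal.top_mul] at h1
    · exact hT (top_le_iff.mp h1)
    · have := Real.rpow_pos_of_pos (hρ0 (n + 1)) (7/4 : ℝ)
      exact (ENNReal.ofReal_pos.mpr this).ne'
  -- no atoms
  have hatom : ∀ᵐ x ∂ν, ν {x} = 0 := by
    have h0 : ∫⁻ x, ν (closedBall x 0) ∂ν = 0 := by
      have h1 : Tendsto (fun n => ENNReal.ofReal (c * ρ n ^ (7/4 : ℝ))) atTop (𝓝 0) := by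
        have h2 : Tendsto ρ atTop (𝓝 0) := by
          have h3 := (tendsto_pow_atTop_nhds_zero_of_lt_one (r := (1/2:ℝ)) (by norm_num)
            (by norm_num)).const_mul r0
          rw [mul_zero] at h3
          rw [hρ]
          exact h3
        have h4 : Tendsto (fun n => c * ρ n ^ (7/4 : ℝ)) atTop (𝓝 (c * 0 ^ (7/4 : ℝ))) :=
          (h2.rpow_const (Or.inr (by norm_num))).const_mul c
        rw [Real.zero_rpow (by norm_num), mul_zero] at h4
        have h5 := ENNReal.tendsto_ofReal h4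
        rwa [ENNReal.ofReal_zero] at h5
      refine le_antisymm (ge_of_tendsto' h1 fun n => ?_) zero_le
      refine le_trans (lintegral_mono fun x => measure_mono (closedBall_subset_closedBall
        (hρ0 n).le)) (hG _ (hρ0 n) (hρr n))
    have h1 := (lintegral_eq_zero_iff (meas_cb ν 0)).mp h0
    filter_upwards [h1] with x hx
    simpa using hx
  -- the pointwise bound
  have hpt : ∀ d : ℝ, 0 < d → k d ≤ k (ρ 0) + ∑' n, (if d ≤ ρ n then k (ρ (n + 1)) else 0) := by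
    intro d hd
    rcases le_or_gt d (ρ 0) with h | h
    · have hdm : d ∈ Ioc (0:ℝ) r0 := ⟨hd, by rw [hρ] at h; simpa using h⟩
      have h2 := Ioc_union r0 hr0 hdm
      rw [mem_iUnion] at h2
      obtain ⟨n, hn1, hn2⟩ := h2
      have hn1' : ρ (n + 1) < d := by rw [hρ]; exact hn1
      have hn2' : d ≤ ρ n := by rw [hρ]; exact hn2
      have h3 : k d ≤ k (ρ (n + 1)) := hk (hρ0 _).le hd.le hn1'.le
      refine le_trans ?_ (le_add_of_nonneg_left zero_le)
      refine h3.trans ?_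
      have h4 := ENNReal.le_tsum (f := fun n => (if d ≤ ρ n then k (ρ (n + 1)) else 0)) n
      rw [if_pos hn2'] at h4
      exact h4
    · exact (hk (hρ0 _).le hd.le h.le).trans (le_add_of_nonneg_right zero_le)
  have hE : energy k ν ≤ k (ρ 0) * (ν univ * ν univ) + ∑' n, k (ρ (n + 1)) * GG ν (ρ n) := by
    unfold energy
    have h1 : ∫⁻ x, ∫⁻ y, k (dist x y) ∂ν ∂ν ≤
        ∫⁻ x, (k (ρ 0) * ν univ + ∑' n, k (ρ (n + 1)) * ν (closedBall x (ρ n))) ∂ν := by
      refine lintegral_mono_ae ?_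
      filter_upwards [hatom] with x hx
      have h2 : ∫⁻ y, k (dist x y) ∂ν ≤
          ∫⁻ y, (k (ρ 0) + ∑' n, (if dist x y ≤ ρ n then k (ρ (n + 1)) else 0)) ∂ν := by
        refine lintegral_mono_ae ?_
        have h3 : ∀ᵐ y ∂ν, y ≠ x := by
          rw [ae_iff]
          simpa using hx
        filter_upwards [h3] with y hy
        exact hpt _ (dist_pos.mpr (Ne.symm hy))
      refine h2.trans (le_of_eq ?_)
      rw [lintegral_add_left measurable_const, lintegral_const,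
        lintegral_tsum fun n => (meas_if _ _ _).aemeasurable]
      congr 1
      refine tsum_congr fun n => ?_
      exact cball_ind ν _ _ _
    refine h1.trans (le_of_eq ?_)
    rw [lintegral_add_left measurable_const, lintegral_const,
      lintegral_tsum fun n => ((meas_cb ν _).const_mul _).aemeasurable]
    congr 1
    · ring
    · refine tsum_congr fun n => ?_
      rw [lintegral_const_mul _ (meas_cb ν _)]
      rfl
  refine (lt_of_le_of_lt hE ?_).ne
  refine ENNReal.add_lt_top.mpr ⟨ENNReal.mul_lt_top (hkfin 0).lt_top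
    (ENNReal.mul_lt_top (measure_lt_top _ _) (measure_lt_top _ _)), ?_⟩
  have h1 : ∀ n, k (ρ (n + 1)) * GG ν (ρ n) ≤
      ENNReal.ofReal (16 * c) * (k (ρ (n + 1)) * ENNReal.ofReal (ρ (n + 2) ^ (7/4 : ℝ))) := by
    intro n
    have h2 : c * ρ n ^ (7/4 : ℝ) ≤ 16 * c * ρ (n + 2) ^ (7/4 : ℝ) := by
      have e : ρ (n + 2) = (1/4) * ρ n := by rw [hhalf, hhalf]; ring
      rw [e, Real.mul_rpow (by norm_num) (hρ0 n).le]
      have h3 : (1/16:ℝ) ≤ (1/4:ℝ) ^ (7/4 : ℝ) := by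
        calc (1/16:ℝ) = (1/4:ℝ) ^ (2 : ℝ) := by norm_num
          _ ≤ (1/4:ℝ) ^ (7/4 : ℝ) :=
            Real.rpow_le_rpow_of_exponent_ge (by norm_num) (by norm_num) (by norm_num)
      have h4 : 0 < ρ n ^ (7/4 : ℝ) := Real.rpow_pos_of_pos (hρ0 n) _
      have h5 : 1 ≤ 16 * (1/4:ℝ) ^ (7/4 : ℝ) := by linarith
      calc c * ρ n ^ (7/4 : ℝ) = 1 * (c * ρ n ^ (7/4 : ℝ)) := by ring
        _ ≤ (16 * (1/4:ℝ) ^ (7/4 : ℝ)) * (c * ρ n ^ (7/4 : ℝ)) :=
            mul_le_mul_of_nonneg_right h5 (by positivity)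
        _ = _ := by ring
    calc k (ρ (n + 1)) * GG ν (ρ n) ≤ k (ρ (n + 1)) * ENNReal.ofReal (16 * c * ρ (n + 2) ^ (7/4 : ℝ)) := by
          gcongr
          exact (hG _ (hρ0 n) (hρr n)).trans (ENNReal.ofReal_le_ofReal h2)
      _ = _ := by
          rw [ENNReal.ofReal_mul (by positivity)]
          ring
  refine lt_of_le_of_lt (ENNReal.tsum_le_tsum h1) ?_
  rw [ENNReal.tsum_mul_left]
  refine ENNReal.mul_lt_top ENNReal.ofReal_lt_top ?_
  refine lt_of_le_of_lt ?_ hT.lt_top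
  refine le_trans ?_ hlowsum
  exact ENNReal.tsum_comp_le_tsum_of_injective (f := fun n : ℕ => n + 1)
    (fun a b h => by simpa using h) (fun n => k (ρ n) * ENNReal.ofReal (ρ (n + 1) ^ (7/4 : ℝ)))

end Pool.Agent.N481.EP
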