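import Mathlib

/-!
Correlation integrals from below: Cauchy-Schwarz on the neighbourhood of a set.
-/

set_option autoImplicit false

namespace Pool.Agent.N481.EP

open MeasureTheory Filter Topology Metric Set ENNReal

theorem meas_ball (ν : Measure ℂ) [IsFiniteMeasure ν] (ρ : ℝ) :
    Measurable fun z : ℂ => ν (ball z ρ) := by
  have hS : MeasurableSet {q : ℂ × ℂ | dist q.2 q.1 < ρ} :=
    (isOpen_lt (by fun_prop) continuous_const).measurableSet
  exact measurable_measure_prodMk_left hS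

theorem meas_cball (ν : Measure ℂ) [IsFiniteMeasure ν] (ρ : ℝ) :
    Measurable fun z : ℂ => ν (closedBall z ρ) := by
  have hS : MeasurableSet {q : ℂ × ℂ | dist q.2 q.1 ≤ ρ} :=
    (isClosed_le (by fun_prop) continuous_const).measurableSet
  exact measurable_measure_prodMk_left hS

theorem ball_ind (ν : Measure ℂ) (ρ : ℝ) (z : ℂ) :
    ν (ball z ρ) = ∫⁻ x, (ball z ρ).indicator (fun _ => (1:ℝ≥0∞)) x ∂ν := by
  rw [lintegral_indicator isOpen_ball.measurableSet]
  simp

theorem meas_ind (ρ : ℝ) :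
    Measurable fun q : ℂ × ℂ => (ball q.1 ρ).indicator (fun _ => (1:ℝ≥0∞)) q.2 := by
  have hS : MeasurableSet {q : ℂ × ℂ | dist q.2 q.1 < ρ} :=
    (isOpen_lt (by fun_prop) continuous_const).measurableSet
  have e : (fun q : ℂ × ℂ => (ball q.1 ρ).indicator (fun _ => (1:ℝ≥0∞)) q.2) =
      ({q : ℂ × ℂ | dist q.2 q.1 < ρ}).indicator (fun _ => (1:ℝ≥0∞)) := by
    funext q
    by_cases h : dist q.2 q.1 < ρ
    · rw [indicator_of_mem (show q.2 ∈ ball q.1 ρ from h),
        indicator_of_mem (show q ∈ {q : ℂ × ℂ | dist q.2 q.1 < ρ} from h)]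
    · rw [indicator_of_notMem (show q.2 ∉ ball q.1 ρ from h),
        indicator_of_notMem (show q ∉ {q : ℂ × ℂ | dist q.2 q.1 < ρ} from h)]
  rw [e]
  exact measurable_const.indicator hS

theorem ind_symm (ρ : ℝ) (x z : ℂ) : (ball z ρ).indicator (fun _ => (1:ℝ≥0∞)) x =
    (ball x ρ).indicator (fun _ => (1:ℝ≥0∞)) z := by
  by_cases h : dist x z < ρ
  · rw [indicator_of_mem (show x ∈ ball z ρ from h), indicator_of_mem (show z ∈ ball x ρ by
      rw [mem_ball, dist_comm]; exact h)]
  · rw [indicator_of_notMem (show x ∉ ball z ρ from h), indicator_of_notMem (show z ∉ ball x ρ by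
      rw [mem_ball, dist_comm]; exact h)]

/-- the mean value of the mass of the balls -/
theorem int_ball (ν : Measure ℂ) [IsFiniteMeasure ν] (ρ : ℝ) :
    ∫⁻ z : ℂ, ν (ball z ρ) = ν univ * volume (ball (0:ℂ) ρ) := by
  simp only [ball_ind ν ρ]
  rw [lintegral_lintegral_swap (meas_ind ρ).aemeasurable]
  simp only [ind_symm ρ]
  have h : ∀ x : ℂ, ∫⁻ z : ℂ, (ball x ρ).indicator (fun _ => (1:ℝ≥0∞)) z =
      volume (ball (0:ℂ) ρ) := by
    intro x
    rw [lintegral_indicator isOpen_ball.measurableSet]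
    simp only [lintegral_const, Measure.restrict_apply, MeasurableSet.univ, univ_inter, one_mul]
    exact Measure.addHaar_ball_center volume x ρ
  simp only [h]
  rw [lintegral_const, mul_comm]

/-- the mean square -/
theorem int_sq (ν : Measure ℂ) [IsFiniteMeasure ν] (ρ : ℝ) :
    ∫⁻ z : ℂ, ν (ball z ρ) * ν (ball z ρ) ≤
      volume (ball (0:ℂ) ρ) * ∫⁻ x, ν (closedBall x (2 * ρ)) ∂ν := by
  have h1 : ∀ z : ℂ, ν (ball z ρ) * ν (ball z ρ) =
      ∫⁻ x, (ball z ρ).indicator (fun _ => (1:ℝ≥0∞)) x * ν (ball z ρ) ∂ν := by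
    intro z
    rw [lintegral_mul_const _ (measurable_const.indicator isOpen_ball.measurableSet), ← ball_ind]
  simp only [h1]
  rw [lintegral_lintegral_swap (((meas_ind ρ).mul ((meas_ball ν ρ).comp measurable_fst)).aemeasurable)]
  have h2 : ∀ x : ℂ, ∫⁻ z : ℂ, (ball z ρ).indicator (fun _ => (1:ℝ≥0∞)) x * ν (ball z ρ) ≤
      volume (ball (0:ℂ) ρ) * ν (closedBall x (2 * ρ)) := by
    intro x
    have h3 : ∀ z : ℂ, (ball z ρ).indicator (fun _ => (1:ℝ≥0∞)) x * ν (ball z ρ) ≤
        (ball x ρ).indicator (fun _ => ν (closedBall x (2 * ρ))) z := by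
      intro z
      rw [ind_symm]
      by_cases h : z ∈ ball x ρ
      · rw [indicator_of_mem h, indicator_of_mem h, one_mul]
        refine measure_mono fun y hy => ?_
        rw [mem_ball] at h hy
        rw [mem_closedBall]
        have := dist_triangle y z x
        linarith
      · rw [indicator_of_notMem h, indicator_of_notMem h, zero_mul]
    refine (lintegral_mono h3).trans ?_
    rw [lintegral_indicator isOpen_ball.measurableSet, lintegral_const,
      Measure.restrict_apply MeasurableSet.univ, univ_inter, Measure.addHaar_ball_center volume x ρ,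
      mul_comm]
  refine (lintegral_mono h2).trans ?_
  rw [lintegral_const_mul _ (meas_cball ν _)]

/-- Cauchy-Schwarz for the set function -/
theorem cs (g : ℂ → ℝ≥0∞) (hg : Measurable g) (B : Set ℂ) (hB : MeasurableSet B)
    (h0 : ∀ z, z ∉ B → g z = 0) :
    (∫⁻ z, g z) ^ 2 ≤ (∫⁻ z, g z * g z) * volume B := by
  have e1 : ∫⁻ z, g z = ∫⁻ z, (g * B.indicator (fun _ => (1:ℝ≥0∞))) z := by
    refine lintegral_congr fun z => ?_
    by_cases h : z ∈ B
    · rw [Pi.mul_apply, indicator_of_mem h, mul_one]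
    · rw [Pi.mul_apply, indicator_of_notMem h, mul_zero, h0 z h]
  have h1 := ENNReal.lintegral_mul_le_Lp_mul_Lq (volume : Measure ℂ)
    (p := 2) (q := 2) Real.HolderConjugate.two_two hg.aemeasurable
    ((measurable_const (a := (1:ℝ≥0∞))).indicator hB).aemeasurable
  rw [← e1] at h1
  have e2 : ∫⁻ z, g z ^ (2:ℝ) = ∫⁻ z, g z * g z := by
    refine lintegral_congr fun z => ?_
    rw [ENNReal.rpow_two, sq]
  have e3 : ∫⁻ z, (B.indicator (fun _ => (1:ℝ≥0∞)) z) ^ (2:ℝ) = volume B := by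
    have : ∀ z, (B.indicator (fun _ => (1:ℝ≥0∞)) z) ^ (2:ℝ) = B.indicator (fun _ => (1:ℝ≥0∞)) z := by
      intro z
      by_cases h : z ∈ B
      · rw [indicator_of_mem h, ENNReal.one_rpow]
      · rw [indicator_of_notMem h, ENNReal.zero_rpow_of_pos (by norm_num)]
    simp only [this]
    rw [lintegral_indicator hB]
    simp
  rw [e2, e3] at h1
  have h2 : (∫⁻ z, g z) ^ (2:ℝ) ≤ ((∫⁻ z, g z * g z) ^ (1/2:ℝ) * volume B ^ (1/2:ℝ)) ^ (2:ℝ) :=
    ENNReal.rpow_le_rpow h1 (by norm_num)
  rw [ENNReal.mul_rpow_of_nonneg _ _ (by norm_num), ← ENNReal.rpow_mul, ← ENNReal.rpow_mul] at h2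
  norm_num at h2
  exact h2

/-- The lower bound for the correlation integral of a measure carried by `A`. -/
theorem riesz (ν : Measure ℂ) [IsFiniteMeasure ν] {A : Set ℂ} (hA : ν Aᶜ = 0) {r : ℝ} (hr : 0 < r) :
    ν univ ^ 2 * volume (ball (0:ℂ) (r / 2)) ≤
      (∫⁻ x, ν (closedBall x r) ∂ν) * volume (thickening (r / 2) A) := by
  set V := volume (ball (0:ℂ) (r / 2)) with hV
  have hV0 : V ≠ 0 := (measure_ball_pos volume (0:ℂ) (by positivity)).ne'
  have hVt : V ≠ ⊤ := measure_ball_lt_top.ne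
  have h1 := cs (fun z => ν (ball z (r / 2))) (meas_ball ν _) (thickening (r / 2) A)
    isOpen_thickening.measurableSet (fun z hz => by
      refine measure_mono_null (t := Aᶜ) (fun y hy => ?_) hA
      intro hyA
      apply hz
      rw [mem_thickening_iff]
      rw [mem_ball, dist_comm] at hy
      exact ⟨y, hyA, hy⟩)
  have h2 := int_sq ν (r / 2)
  have e : 2 * (r / 2) = r := by ring
  rw [e] at h2
  simp only [int_ball] at h1
  have h3 : (ν univ * V) ^ 2 ≤ V * (∫⁻ x, ν (closedBall x r) ∂ν) * volume (thickening (r / 2) A) :=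
    h1.trans (mul_le_mul_left h2 _)
  have h4 : V * (ν univ ^ 2 * V) ≤ V * ((∫⁻ x, ν (closedBall x r) ∂ν) *
      volume (thickening (r / 2) A)) := by
    calc V * (ν univ ^ 2 * V) = (ν univ * V) ^ 2 := by ring
      _ ≤ _ := h3
      _ = _ := by ring
  exact (ENNReal.mul_le_mul_iff_right hV0 hVt).mp h4

end Pool.Agent.N481.EP
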