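import Pool.Agent.N481.EP.All8
import Pool.Agent.N481.EP.Riesz
import Pool.Agent.N481.EP.Kern

/-!
Correlation integrals of the pieces and capacities.
-/

set_option autoImplicit false

namespace Pool.Agent.N481.EP

open H984N MeasureTheory Filter Topology Metric Y994.MC

theorem oc_set_closed (f : C(unitInterval, ℂ)) (s t : unitInterval) (r : ℝ) :
    IsClosed {q : unitInterval × unitInterval | (s ≤ q.2 ∧ q.2 ≤ t) ∧ dist (f q.1) (f q.2) ≤ r} := by
  have hf := f.continuous
  refine IsClosed.and (IsClosed.and ?_ ?_) ?_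
  · exact isClosed_le continuous_const continuous_snd
  · exact isClosed_le continuous_snd continuous_const
  · exact isClosed_le ((hf.comp continuous_fst).dist (hf.comp continuous_snd)) continuous_const

theorem oc_meas' (f : C(unitInterval, ℂ)) (s t : unitInterval) (r : ℝ) :
    Measurable fun u : unitInterval => (volume {v : unitInterval | (s ≤ v ∧ v ≤ t) ∧ dist (f u) (f v) ≤ r}) :=
  measurable_measure_prodMk_left (oc_set_closed f s t r).measurableSet

theorem oc_meas (f : C(unitInterval, ℂ)) (s t : unitInterval) (r : ℝ) :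
    Measurable fun u : unitInterval => oc f s t r u := (oc_meas' f s t r).ennreal_toReal

theorem oc_le_one (f : C(unitInterval, ℂ)) (s t : unitInterval) (r : ℝ) (u : unitInterval) :
    oc f s t r u ≤ 1 := by
  unfold oc
  have : volume {v : unitInterval | (s ≤ v ∧ v ≤ t) ∧ dist (f u) (f v) ≤ r} ≤ 1 :=
    prob_le_one
  exact ENNReal.toReal_le_of_le_ofReal zero_le_one (by rw [ENNReal.ofReal_one]; exact this)

theorem oc_int (f : C(unitInterval, ℂ)) (s t : unitInterval) (r : ℝ) (A : Set unitInterval) :
    IntegrableOn (fun u => oc f s t r u) A := by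
  have h : Integrable (fun u => oc f s t r u) := by
    refine Integrable.mono' (integrable_const (1:ℝ)) (oc_meas f s t r).aestronglyMeasurable
      (Eventually.of_forall fun u => ?_)
    rw [Real.norm_eq_abs, abs_of_nonneg (oc_nonneg _ _ _ _ _)]
    exact oc_le_one _ _ _ _ _
  exact h.integrableOn

/-- the image of the piece of time -/
noncomputable def img (f : C(unitInterval, ℂ)) (E : Set unitInterval) : Measure ℂ :=
  (volume.restrict E).map f

instance (f : C(unitInterval, ℂ)) (E : Set unitInterval) : IsFiniteMeasure (img f E) := by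
  unfold img
  exact Measure.isFiniteMeasure_map _ _

theorem img_univ (f : C(unitInterval, ℂ)) (E : Set unitInterval) : img f E Set.univ = volume E := by
  unfold img
  rw [Measure.map_apply f.continuous.measurable MeasurableSet.univ, Set.preimage_univ,
    Measure.restrict_apply MeasurableSet.univ, Set.univ_inter]

theorem img_ball (f : C(unitInterval, ℂ)) (E : Set unitInterval) (z : ℂ) (r : ℝ) :
    img f E (closedBall z r) = volume ({v | dist z (f v) ≤ r} ∩ E) := by
  have hm : MeasurableSet (f ⁻¹' closedBall z r) :=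
    f.continuous.measurable isClosed_closedBall.measurableSet
  unfold img
  rw [Measure.map_apply f.continuous.measurable isClosed_closedBall.measurableSet,
    Measure.restrict_apply hm]
  congr 1
  ext v
  simp only [Set.mem_inter_iff, Set.mem_preimage, mem_closedBall, dist_comm]
  rfl

theorem GG_img (f : C(unitInterval, ℂ)) (E : Set unitInterval) (r : ℝ) :
    GG (img f E) r = ∫⁻ u in E, volume ({v | dist (f u) (f v) ≤ r} ∩ E) := by
  have h := lintegral_map (μ := volume.restrict E) (meas_cb (img f E) r) f.continuous.measurable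
  have e : GG (img f E) r = ∫⁻ x, (img f E) (closedBall x r) ∂((volume.restrict E).map f) := rfl
  rw [e, h]
  simp only [img_ball]

theorem GG_arc (f : C(unitInterval, ℂ)) (s t : unitInterval) (r : ℝ) :
    GG (img f (Set.Icc s t)) r = ENNReal.ofReal (∫ u in Set.Icc s t, oc f s t r u) := by
  rw [GG_img, ofReal_integral_eq_lintegral_ofReal (oc_int f s t r _)
    (Eventually.of_forall fun u => oc_nonneg _ _ _ _ _)]
  refine lintegral_congr fun u => ?_
  unfold oc
  rw [ENNReal.ofReal_toReal (measure_ne_top _ _)]
  congr 1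
  ext v
  simp only [Set.mem_inter_iff, Set.mem_Icc]
  exact and_comm

theorem vol_ball_low {r : ℝ} (hr : 0 < r) :
    ENNReal.ofReal (r ^ 2 / 2) ≤ volume (ball (0:ℂ) (r / 2)) := by
  rw [Complex.volume_ball, ← ENNReal.ofReal_pow (by positivity)]
  have e : (NNReal.pi : ENNReal) = ENNReal.ofReal Real.pi := by
    rw [ENNReal.ofReal]
    congr 1
    ext
    simp [NNReal.coe_real_pi, Real.coe_toNNReal _ Real.pi_pos.le]
  rw [e, ← ENNReal.ofReal_mul (by positivity)]
  refine ENNReal.ofReal_le_ofReal ?_
  have := Real.pi_gt_three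
  nlinarith [sq_nonneg r, sq_pos_of_pos hr]

theorem ar_lt_top (f : C(unitInterval, ℂ)) (s t : unitInterval) (ρ : ℝ) :
    volume (thickening ρ (f '' Set.Icc s t)) ≠ ⊤ := by
  have h1 := (im_bdd f s t).thickening (δ := ρ)
  exact h1.measure_lt_top.ne

theorem arc_low (f : C(unitInterval, ℂ)) {s t : unitInterval} (hst : s ≤ t) {r : ℝ} (hr : 0 < r) :
    ((t:ℝ) - s) ^ 2 * (r ^ 2 / 2) ≤ (∫ u in Set.Icc s t, oc f s t r u) *
      (volume (thickening (r / 2) (f '' Set.Icc s t))).toReal := by
  have hst' : (s:ℝ) ≤ t := hst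
  have hA : img f (Set.Icc s t) (f '' Set.Icc s t)ᶜ = 0 := by
    have hc : IsClosed (f '' Set.Icc s t) := (isCompact_Icc.image f.continuous).isClosed
    unfold img
    rw [Measure.map_apply f.continuous.measurable hc.measurableSet.compl,
      Measure.restrict_apply (f.continuous.measurable hc.measurableSet.compl)]
    have e : f ⁻¹' (f '' Set.Icc s t)ᶜ ∩ Set.Icc s t = ∅ := by
      ext v
      simp only [Set.mem_inter_iff, Set.mem_preimage, Set.mem_compl_iff, Set.mem_empty_iff_false,
        iff_false, not_and]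
      exact fun h1 h2 => h1 ⟨v, h2, rfl⟩
    rw [e, measure_empty]
  have h1 := riesz (img f (Set.Icc s t)) hA hr
  rw [img_univ, unitInterval.volume_Icc] at h1
  have h2 : ENNReal.ofReal (((t:ℝ) - s) ^ 2 * (r ^ 2 / 2)) ≤
      ENNReal.ofReal (∫ u in Set.Icc s t, oc f s t r u) *
      volume (thickening (r / 2) (f '' Set.Icc s t)) := by
    rw [← GG_arc]
    refine le_trans ?_ h1
    rw [ENNReal.ofReal_mul (sq_nonneg _), ENNReal.ofReal_pow (by linarith)]
    gcongr
    exact vol_ball_low hr
  rw [← ENNReal.ofReal_toReal (ar_lt_top f s t (r / 2)), ← ENNReal.ofReal_mul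
    (integral_nonneg fun u => oc_nonneg _ _ _ _ _)] at h2
  exact (ENNReal.ofReal_le_ofReal_iff (mul_nonneg (integral_nonneg fun u => oc_nonneg _ _ _ _ _)
    ENNReal.toReal_nonneg)).mp h2

end Pool.Agent.N481.EP
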