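import Pool.Agent.N481.EP.Fin

/-!
The final form: correlation integrals of the pieces and capacities.
-/

set_option autoImplicit false

namespace Pool.Agent.N481.EP

open H984N MeasureTheory Filter Topology Metric Y994.MC

/-- the two-sided comparison of time and area, as in the library -/
def Two (K : ℝ) (p : X) : Prop := ∀ᶠ ρ : ℝ in 𝓝[>] 0, ∀ s t : unitInterval, s ≤ t →
  968 * K * ρ ^ (7/4 : ℝ) * Real.log (1 / ρ) ≤ p.2 * ((t:ℝ) - s) →
  1 / (8 * K) * (p.2 * ((t:ℝ) - s)) * ρ ^ (1/4 : ℝ) ≤ ar ρ p.1 s t ∧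
  ar ρ p.1 s t ≤ 968 * K * (p.2 * ((t:ℝ) - s)) * ρ ^ (1/4 : ℝ)

theorem ev_half {P : ℝ → Prop} (h : ∀ᶠ ρ : ℝ in 𝓝[>] 0, P ρ) : ∀ᶠ r : ℝ in 𝓝[>] 0, P (r / 2) := by
  have ht : Tendsto (fun r : ℝ => r / 2) (𝓝[>] 0) (𝓝[>] 0) := by
    refine tendsto_nhdsWithin_iff.mpr ⟨?_, ?_⟩
    · have h1 : Tendsto (fun r : ℝ => r / 2) (𝓝 0) (𝓝 (0 / 2)) := by
        have : Continuous fun r : ℝ => r / 2 := by fun_prop
        exact this.tendsto 0
      rw [zero_div] at h1
      exact h1.mono_left nhdsWithin_le_nhds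
    · filter_upwards [self_mem_nhdsWithin] with r hr
      have : (0:ℝ) < r := hr
      show (0:ℝ) < r / 2
      positivity
  exact ht.eventually h

theorem half_cond {r : ℝ} (hr0 : 0 < r) (hr1 : r ≤ 1/2) :
    (r / 2) ^ (7/4 : ℝ) * Real.log (1 / (r / 2)) ≤ r ^ (7/4 : ℝ) * Real.log (1 / r) := by
  have h1 : (r / 2) ^ (7/4 : ℝ) ≤ r ^ (7/4 : ℝ) / 2 := by
    rw [Real.div_rpow hr0.le (by norm_num)]
    have h2 : (2:ℝ) ≤ (2:ℝ) ^ (7/4 : ℝ) := by
      calc (2:ℝ) = (2:ℝ) ^ (1:ℝ) := (Real.rpow_one 2).symm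
        _ ≤ (2:ℝ) ^ (7/4 : ℝ) := Real.rpow_le_rpow_of_exponent_le (by norm_num) (by norm_num)
    exact div_le_div_of_nonneg_left (Real.rpow_nonneg hr0.le _) (by norm_num) h2
  have h3 : Real.log (1 / (r / 2)) ≤ 2 * Real.log (1 / r) := by
    have h4 : (2:ℝ) ≤ 1 / r := by
      rw [le_div_iff₀ hr0]
      linarith
    have h5 : 1 / (r / 2) = 2 * (1 / r) := by field_simp
    rw [h5, Real.log_mul (by norm_num) (by positivity)]
    have h6 := Real.log_le_log (by norm_num) h4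
    linarith
  have h7 : 0 ≤ Real.log (1 / (r / 2)) := Real.log_nonneg (by
    rw [le_div_iff₀ (by positivity)]
    linarith)
  have h8 : 0 ≤ r ^ (7/4 : ℝ) := Real.rpow_nonneg hr0.le _
  calc (r / 2) ^ (7/4 : ℝ) * Real.log (1 / (r / 2)) ≤ (r ^ (7/4 : ℝ) / 2) * (2 * Real.log (1 / r)) :=
        mul_le_mul h1 h3 h7 (by positivity)
    _ = _ := by ring

theorem low_all {K : ℝ} (hK : 1 ≤ K) {p : X} (hp : 0 < p.2) (h : Two K p) :
    ∀ᶠ r : ℝ in 𝓝[>] 0, ∀ s t : unitInterval, s ≤ t →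
      968 * K * (r ^ (7/4 : ℝ) * Real.log (1 / r)) ≤ p.2 * ((t:ℝ) - s) →
      1 / (1936 * K) * r ^ (7/4 : ℝ) * ((t:ℝ) - s) ≤
        ∫ u in Set.Icc s t, p.2 * oc p.1 s t r u := by
  have hK0 : 0 < K := by linarith
  have hev : ∀ᶠ r : ℝ in 𝓝[>] 0, 0 < r ∧ r < 1/2 :=
    Filter.Eventually.and self_mem_nhdsWithin
      (nhdsWithin_le_nhds (gt_mem_nhds (by norm_num)))
  filter_upwards [ev_half h, hev] with r hr hr1 s t hst hT
  obtain ⟨hr0, hr1⟩ := hr1
  have hst' : (s:ℝ) ≤ t := hst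
  have hI0 : 0 ≤ ∫ u in Set.Icc s t, oc p.1 s t r u :=
    integral_nonneg fun u => oc_nonneg _ _ _ _ _
  rw [integral_const_mul]
  rcases hst'.eq_or_lt with heq | hlt
  · rw [heq, sub_self, mul_zero]
    exact mul_nonneg hp.le hI0
  have h1 := (hr s t hst (by
    have h2 := half_cond hr0 hr1.le
    have h3 := mul_le_mul_of_nonneg_left h2 (show 0 ≤ 968 * K by positivity)
    calc 968 * K * (r / 2) ^ (7/4 : ℝ) * Real.log (1 / (r / 2)) =
        968 * K * ((r / 2) ^ (7/4 : ℝ) * Real.log (1 / (r / 2))) := by ring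
      _ ≤ _ := h3
      _ ≤ _ := hT)).2
  have h2 := arc_low p.1 hst hr0
  have e1 : (volume (thickening (r / 2) (p.1 '' Set.Icc s t))).toReal = ar (r / 2) p.1 s t := rfl
  rw [e1] at h2
  have h14 : 0 < r ^ (1/4 : ℝ) := Real.rpow_pos_of_pos hr0 _
  have h3 : (r / 2) ^ (1/4 : ℝ) ≤ r ^ (1/4 : ℝ) :=
    Real.rpow_le_rpow (by positivity) (by linarith) (by norm_num)
  have hd : 0 < (t:ℝ) - s := by linarith
  have h4 : ((t:ℝ) - s) ^ 2 * (r ^ 2 / 2) ≤ (∫ u in Set.Icc s t, oc p.1 s t r u) *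
      (968 * K * (p.2 * ((t:ℝ) - s)) * r ^ (1/4 : ℝ)) := by
    refine h2.trans (mul_le_mul_of_nonneg_left (h1.trans ?_) hI0)
    exact mul_le_mul_of_nonneg_left h3 (by positivity)
  have e2 : r ^ 2 = r ^ (7/4 : ℝ) * r ^ (1/4 : ℝ) := by
    rw [← Real.rpow_add hr0, ← Real.rpow_natCast]
    norm_num
  rw [e2] at h4
  have h5 : (((t:ℝ) - s) * r ^ (1/4 : ℝ)) * (r ^ (7/4 : ℝ) * ((t:ℝ) - s)) ≤
      (((t:ℝ) - s) * r ^ (1/4 : ℝ)) *
        (1936 * K * (p.2 * ∫ u in Set.Icc s t, oc p.1 s t r u)) := by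
    calc (((t:ℝ) - s) * r ^ (1/4 : ℝ)) * (r ^ (7/4 : ℝ) * ((t:ℝ) - s)) =
        2 * (((t:ℝ) - s) ^ 2 * (r ^ (7/4 : ℝ) * r ^ (1/4 : ℝ) / 2)) := by ring
      _ ≤ 2 * ((∫ u in Set.Icc s t, oc p.1 s t r u) *
        (968 * K * (p.2 * ((t:ℝ) - s)) * r ^ (1/4 : ℝ))) :=
          mul_le_mul_of_nonneg_left h4 (by norm_num)
      _ = _ := by ring
  have h6 := le_of_mul_le_mul_left h5 (by positivity)
  have e3 : 1 / (1936 * K) * r ^ (7/4 : ℝ) * ((t:ℝ) - s) =
      (r ^ (7/4 : ℝ) * ((t:ℝ) - s)) / (1936 * K) := by field_simp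
  rw [e3, div_le_iff₀ (by positivity)]
  linarith

/-- small radii satisfy the condition for the whole curve -/
theorem whole_cond {A T : ℝ} (hT : 0 < T) :
    ∀ᶠ r : ℝ in 𝓝[>] 0, A * (r ^ (7/4 : ℝ) * Real.log (1 / r)) ≤ T := by
  have h1 := (tendsto_log_mul_rpow_nhdsGT_zero (r := 7/4) (by norm_num)).const_mul (-A)
  rw [mul_zero] at h1
  filter_upwards [h1.eventually (ge_mem_nhds hT)] with r h2
  refine le_trans (le_of_eq ?_) h2
  rw [one_div, Real.log_inv]
  ring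

theorem Icc_eq : Set.Icc (0:unitInterval) 1 = Set.univ := by
  ext u
  simp only [Set.mem_Icc, Set.mem_univ, iff_true]
  exact ⟨unitInterval.nonneg', unitInterval.le_one'⟩

theorem range_eq (f : C(unitInterval, ℂ)) : f '' Set.Icc 0 1 = Set.range f := by
  rw [Icc_eq, Set.image_univ]

theorem area_whole {K : ℝ} {p : X} (hp : 0 < p.2) (h : Two K p) :
    ∀ᶠ r : ℝ in 𝓝[>] 0, ar (r / 2) p.1 0 1 ≤ 968 * K * p.2 * r ^ (1/4 : ℝ) := by
  have h1 := ev_half (h.and (whole_cond (A := 968 * K) hp))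
  filter_upwards [h1, self_mem_nhdsWithin] with r hr hr0
  have hr0' : (0:ℝ) < r := hr0
  have hK : 0 ≤ K := by
    by_contra hcon
    push Not at hcon
    have h2 := hr.1 0 1 zero_le_one (by
      have := hr.2
      simp only [Set.Icc.coe_one, Set.Icc.coe_zero, sub_zero, mul_one]
      linarith)
    have h3 := ar_nonneg (r / 2) p.1 0 1
    have h4 := h2.2
    simp only [Set.Icc.coe_one, Set.Icc.coe_zero, sub_zero, mul_one] at h4
    have h5 : 0 < p.2 * (r / 2) ^ (1/4 : ℝ) := by positivity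
    nlinarith
  have h2 := (hr.1 0 1 zero_le_one (by
    have := hr.2
    simp only [Set.Icc.coe_one, Set.Icc.coe_zero, sub_zero, mul_one]
    linarith)).2
  simp only [Set.Icc.coe_one, Set.Icc.coe_zero, sub_zero, mul_one] at h2
  refine h2.trans ?_
  have h3 : (r / 2) ^ (1/4 : ℝ) ≤ r ^ (1/4 : ℝ) :=
    Real.rpow_le_rpow (by positivity) (by linarith) (by norm_num)
  exact mul_le_mul_of_nonneg_left h3 (by positivity)

/-- from the seventh to the first moment -/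
theorem first_of_seventh {A : ℝ} (hA : 0 < A) {p : X} (hp : 0 < p.2) {r : ℝ} (hr : 0 < r)
    (h : ∫ u in Set.Icc (0:unitInterval) 1, (p.2 * oc p.1 0 1 r u) ^ 7 ≤ (A * r ^ (7/4 : ℝ)) ^ 7) :
    ∫ u in Set.Icc (0:unitInterval) 1, oc p.1 0 1 r u ≤ 2 * A / p.2 * r ^ (7/4 : ℝ) := by
  set l := A * r ^ (7/4 : ℝ) with hl
  have hl0 : 0 < l := mul_pos hA (Real.rpow_pos_of_pos hr _)
  have hI7 : IntegrableOn (fun u => (p.2 * oc p.1 0 1 r u) ^ 7) (Set.Icc (0:unitInterval) 1) := by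
    have h1 : Integrable (fun u => (p.2 * oc p.1 0 1 r u) ^ 7) := by
      refine Integrable.mono' (integrable_const (p.2 ^ 7))
        (((oc_meas p.1 0 1 r).const_mul p.2).pow_const 7).aestronglyMeasurable
        (Eventually.of_forall fun u => ?_)
      have h0 := oc_nonneg p.1 0 1 r u
      have h1 := oc_le_one p.1 0 1 r u
      rw [Real.norm_eq_abs, abs_of_nonneg (by positivity)]
      refine pow_le_pow_left₀ (by positivity) ?_ 7
      nlinarith
    exact h1.integrableOn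
  have hpt : ∀ x : ℝ, 0 ≤ x → x ≤ l + x ^ 7 / l ^ 6 := by
    intro x hx
    rcases le_or_gt x l with h1 | h1
    · have : 0 ≤ x ^ 7 / l ^ 6 := by positivity
      linarith
    · have h2 : l ^ 6 ≤ x ^ 6 := pow_le_pow_left₀ hl0.le h1.le 6
      have h3 : x ≤ x ^ 7 / l ^ 6 := by
        rw [le_div_iff₀ (by positivity)]
        calc x * l ^ 6 ≤ x * x ^ 6 := mul_le_mul_of_nonneg_left h2 hx
          _ = x ^ 7 := by ring
      linarith
  have h1 : ∫ u in Set.Icc (0:unitInterval) 1, p.2 * oc p.1 0 1 r u ≤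
      ∫ u in Set.Icc (0:unitInterval) 1, (l + (p.2 * oc p.1 0 1 r u) ^ 7 / l ^ 6) := by
    refine setIntegral_mono ((oc_int p.1 0 1 r _).const_mul _)
      ((integrable_const l).add (hI7.div_const _)) fun u => ?_
    exact hpt _ (mul_nonneg hp.le (oc_nonneg _ _ _ _ _))
  rw [integral_add (integrable_const l) (hI7.div_const _), integral_div, integral_const_mul,
    setIntegral_const] at h1
  have e : (volume : Measure unitInterval).real (Set.Icc 0 1) = 1 := by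
    unfold Measure.real
    rw [unitInterval.volume_Icc]
    simp
  rw [e, one_smul] at h1
  have h2 : (∫ u in Set.Icc (0:unitInterval) 1, (p.2 * oc p.1 0 1 r u) ^ 7) / l ^ 6 ≤ l := by
    rw [div_le_iff₀ (by positivity)]
    calc _ ≤ l ^ 7 := h
      _ = l * l ^ 6 := by ring
  have h3 : p.2 * ∫ u in Set.Icc (0:unitInterval) 1, oc p.1 0 1 r u ≤ 2 * l := by linarith
  have e2 : 2 * A / p.2 * r ^ (7/4 : ℝ) = 2 * l / p.2 := by rw [hl]; ring
  rw [e2, le_div_iff₀ hp]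
  linarith

/-- `E` carries a probability measure with finite `k`-energy. -/
def PosCap (k : ℝ → ENNReal) (E : Set ℂ) : Prop :=
  ∃ ν : Measure ℂ, IsProbabilityMeasure ν ∧ ν Eᶜ = 0 ∧ energy k ν ≠ ⊤

theorem energy_smul (k : ℝ → ENNReal) {a : ENNReal} (ha : a ≠ ⊤) (ν : Measure ℂ) :
    energy k (a • ν) = a * (a * energy k ν) := by
  unfold energy
  rw [lintegral_smul_measure]
  simp only [lintegral_smul_measure, smul_eq_mul]
  congr 1
  exact lintegral_const_mul' _ _ ha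

/-- the capacity test for one sample -/
theorem cap_iff {p : X} {C1 C2 r1 : ℝ} (hr1 : 0 < r1) (hC1 : 0 < C1) (hC2 : 0 < C2)
    (hlow : ∀ r : ℝ, 0 < r → r < r1 → ar (r / 2) p.1 0 1 ≤ C1 * r ^ (1/4 : ℝ))
    (hup : ∀ r : ℝ, 0 < r → r < r1 →
      ∫ u in Set.Icc (0:unitInterval) 1, oc p.1 0 1 r u ≤ C2 * r ^ (7/4 : ℝ))
    {k : ℝ → ENNReal} (hk : AntitoneOn k (Set.Ici 0)) {E : Set unitInterval}
    (hE : MeasurableSet E) (hE0 : volume E ≠ 0) : PosCap k (p.1 '' E) ↔ test k ≠ ⊤ := by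
  constructor
  · rintro ⟨ν, hν, hν0, hνE⟩
    refine test_of_energy hk (ν := ν) (c := 1 / (2 * C1)) (by positivity) hr1 (fun r h0 h1 => ?_) hνE
    have hA : ν (p.1 '' Set.Icc 0 1)ᶜ = 0 := by
      refine measure_mono_null ?_ hν0
      rw [range_eq]
      exact Set.compl_subset_compl.mpr (Set.image_subset_range _ _)
    have h2 := riesz ν hA h0
    rw [measure_univ, one_pow, one_mul] at h2
    have h3 : volume (thickening (r / 2) (p.1 '' Set.Icc 0 1)) ≤ ENNReal.ofReal (C1 * r ^ (1/4 : ℝ)) := by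
      rw [← ENNReal.ofReal_toReal (ar_lt_top p.1 0 1 (r / 2))]
      exact ENNReal.ofReal_le_ofReal (hlow r h0 h1)
    have hr14 : 0 < r ^ (1/4 : ℝ) := Real.rpow_pos_of_pos h0 _
    have h4 : ENNReal.ofReal (1 / (2 * C1) * r ^ (7/4 : ℝ)) * ENNReal.ofReal (C1 * r ^ (1/4 : ℝ)) ≤
        GG ν r * ENNReal.ofReal (C1 * r ^ (1/4 : ℝ)) := by
      calc ENNReal.ofReal (1 / (2 * C1) * r ^ (7/4 : ℝ)) * ENNReal.ofReal (C1 * r ^ (1/4 : ℝ))
          = ENNReal.ofReal (r ^ 2 / 2) := by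
            rw [← ENNReal.ofReal_mul (by positivity)]
            congr 1
            have e : r ^ 2 = r ^ (7/4 : ℝ) * r ^ (1/4 : ℝ) := by
              rw [← Real.rpow_add h0, ← Real.rpow_natCast]
              norm_num
            rw [e]
            field_simp
        _ ≤ volume (ball (0:ℂ) (r / 2)) := vol_ball_low h0
        _ ≤ _ := h2
        _ ≤ _ := by
            unfold GG
            gcongr
    have h5 : ENNReal.ofReal (C1 * r ^ (1/4 : ℝ)) ≠ 0 := (ENNReal.ofReal_pos.mpr (by positivity)).ne'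
    exact (ENNReal.mul_le_mul_iff_left h5 ENNReal.ofReal_ne_top).mp h4
  · intro hT
    obtain ⟨K, hKE, hKc, hK0⟩ := hE.exists_lt_isCompact (pos_iff_ne_zero.mpr hE0)
    have hKm : MeasurableSet K := hKc.isClosed.measurableSet
    have hfin : energy k (img p.1 K) ≠ ⊤ := by
      refine energy_of_test hk (c := C2) hC2 hr1 (fun r h0 h1 => ?_) hT
      have h2 : GG (img p.1 K) r ≤ GG (img p.1 (Set.Icc 0 1)) r := by
        rw [GG_img, GG_img]
        have hs : K ⊆ Set.Icc 0 1 := by rw [Icc_eq]; exact Set.subset_univ _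
        refine (lintegral_mono_set hs).trans (lintegral_mono fun u => ?_)
        exact measure_mono (Set.inter_subset_inter_right _ hs)
      refine h2.trans ?_
      rw [GG_arc]
      exact ENNReal.ofReal_le_ofReal (hup r h0 h1)
    have hinv : (volume K)⁻¹ ≠ ⊤ := ENNReal.inv_ne_top.mpr hK0.ne'
    refine ⟨(volume K)⁻¹ • img p.1 K, ⟨?_⟩, ?_, ?_⟩
    · rw [Measure.smul_apply, img_univ, smul_eq_mul]
      exact ENNReal.inv_mul_cancel hK0.ne' (measure_ne_top _ _)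
    · rw [Measure.smul_apply, smul_eq_mul]
      have h2 : img p.1 K (p.1 '' E)ᶜ = 0 := by
        refine measure_mono_null (Set.compl_subset_compl.mpr (Set.image_mono hKE)) ?_
        have hc : IsClosed (p.1 '' K) := (hKc.image p.1.continuous).isClosed
        unfold img
        rw [Measure.map_apply p.1.continuous.measurable hc.measurableSet.compl,
          Measure.restrict_apply (p.1.continuous.measurable hc.measurableSet.compl)]
        have e : p.1 ⁻¹' (p.1 '' K)ᶜ ∩ K = ∅ := by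
          ext v
          simp only [Set.mem_inter_iff, Set.mem_preimage, Set.mem_compl_iff,
            Set.mem_empty_iff_false, iff_false, not_and]
          exact fun h1 h2 => h1 ⟨v, h2, rfl⟩
        rw [e, measure_empty]
      rw [h2, mul_zero]
    · rw [energy_smul k hinv]
      exact ENNReal.mul_ne_top hinv (ENNReal.mul_ne_top hinv hfin)

/-- everything for one sample -/
theorem cap_all {K A : ℝ} (hK : 1 ≤ K) (hA : 0 < A) {p : X} (hp : 0 < p.2) (h : Two K p)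
    (h7 : ∀ᶠ r : ℝ in 𝓝[>] 0, ∀ s t : unitInterval, s ≤ t →
      A * (r ^ (7/4 : ℝ) * Real.log (1 / r)) ≤ p.2 * ((t:ℝ) - s) →
      ∫ u in Set.Icc s t, (p.2 * oc p.1 s t r u) ^ 7 ≤ (A * r ^ (7/4 : ℝ)) ^ 7 * ((t:ℝ) - s))
    {k : ℝ → ENNReal} (hk : AntitoneOn k (Set.Ici 0)) {E : Set unitInterval}
    (hE : MeasurableSet E) (hE0 : volume E ≠ 0) : PosCap k (p.1 '' E) ↔ test k ≠ ⊤ := by
  have hK0 : 0 < K := by linarith
  have h1 := area_whole hp h
  have h2 : ∀ᶠ r : ℝ in 𝓝[>] 0, ∫ u in Set.Icc (0:unitInterval) 1, oc p.1 0 1 r u ≤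
      2 * A / p.2 * r ^ (7/4 : ℝ) := by
    filter_upwards [h7, whole_cond (A := A) hp, self_mem_nhdsWithin] with r hr h3 hr0
    have h4 := hr 0 1 zero_le_one (by
      simp only [Set.Icc.coe_one, Set.Icc.coe_zero, sub_zero, mul_one]
      exact h3)
    simp only [Set.Icc.coe_one, Set.Icc.coe_zero, sub_zero, mul_one] at h4
    exact first_of_seventh hA hp hr0 h4
  obtain ⟨r1, hr1, h5⟩ := mem_nhdsGT_iff_exists_Ioo_subset.mp (h1.and h2)
  exact cap_iff (show (0:ℝ) < r1 from hr1) (C1 := 968 * K * p.2) (C2 := 2 * A / p.2) (by positivity)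
    (by positivity) (fun r h0 h1 => (h5 ⟨h0, h1⟩).1) (fun r h0 h1 => (h5 ⟨h0, h1⟩).2) hk hE hE0

end Pool.Agent.N481.EP
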