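import Pool.Agent.N481.EP.Curve
import Pool.Agent.Y994.MD.MeshB

/-!
The seventh moment bound for the weak limits, at all small radii and for all pieces.
-/

set_option autoImplicit false

namespace Pool.Agent.N481.EP

open H974 Finset H342P H984P H984N TH992.T TH992.L Y994.MC MeasureTheory Filter Topology

/-- The good event of the scale `2 ^ (-j)`. -/
def EQ (K : ℝ) (j : ℕ) : Set X := {p | ∀ s t : unitInterval, s ≤ t →
  p.2 ^ 8 * En7 ((1/2:ℝ) ^ j / 8) p.1 s t ≤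
    K * (((1/2:ℝ) ^ j) ^ (49/4 : ℝ) * (((t:ℝ) - s) * p.2) + (j + 1) * ((1/2:ℝ) ^ j) ^ 14)}

theorem EQ_closed (K : ℝ) (j : ℕ) : IsClosed (EQ K j) := by
  have e : EQ K j = ⋂ s : unitInterval, ⋂ t : unitInterval, ⋂ _ : s ≤ t, {p : X |
      p.2 ^ 8 * En7 ((1/2:ℝ) ^ j / 8) p.1 s t ≤
      K * (((1/2:ℝ) ^ j) ^ (49/4 : ℝ) * (((t:ℝ) - s) * p.2) + (j + 1) * ((1/2:ℝ) ^ j) ^ 14)} := by
    ext p
    simp only [EQ, Set.mem_setOf_eq, Set.mem_iInter]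
  rw [e]
  refine isClosed_iInter fun s => isClosed_iInter fun t => isClosed_iInter fun _ => ?_
  refine isClosed_le ?_ (by fun_prop)
  exact (continuous_snd.pow 8).mul ((En7_cont _ s t).comp continuous_fst)

theorem real_E {K x w T N0 δ : ℝ} (hK : 0 < K) (hx : 0 < x)
    (hw1 : x / 2 ≤ w) (hw2 : w ≤ x) (hT : 0 ≤ T) (hN0 : 0 ≤ N0) (hδ : 0 < δ) (hδx : δ ≤ x) :
    w ^ 14 * (K * ((T + 2 * δ ^ (7/4 : ℝ)) / w ^ (7/4 : ℝ) + N0 + 9)) ≤
      K * (4 * (x ^ (49/4 : ℝ) * T) + (N0 + 17) * x ^ 14) := by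
  have hw : 0 < w := by linarith
  have h1 : x ^ (7/4 : ℝ) ≤ 4 * w ^ (7/4 : ℝ) := by
    have h2 : (x / 2) ^ (7/4 : ℝ) ≤ w ^ (7/4 : ℝ) :=
      Real.rpow_le_rpow (by positivity) hw1 (by norm_num)
    rw [Real.div_rpow hx.le (by norm_num)] at h2
    have h7 : (2:ℝ) ^ (7/4 : ℝ) ≤ 4 := by
      calc (2:ℝ) ^ (7/4 : ℝ) ≤ 2 ^ (2 : ℝ) :=
            Real.rpow_le_rpow_of_exponent_le (by norm_num) (by norm_num)
        _ = 4 := by norm_num
    have h8 : (0:ℝ) < 2 ^ (7/4 : ℝ) := by positivity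
    rw [div_le_iff₀ h8] at h2
    have h9 : 0 ≤ w ^ (7/4 : ℝ) := by positivity
    nlinarith
  have hwp : 0 < w ^ (7/4 : ℝ) := Real.rpow_pos_of_pos hw _
  have hxp : 0 < x ^ (7/4 : ℝ) := Real.rpow_pos_of_pos hx _
  have h2 : δ ^ (7/4 : ℝ) ≤ x ^ (7/4 : ℝ) := Real.rpow_le_rpow hδ.le hδx (by norm_num)
  have hδp : 0 < δ ^ (7/4 : ℝ) := Real.rpow_pos_of_pos hδ _
  have h3 : (T + 2 * δ ^ (7/4 : ℝ)) / w ^ (7/4 : ℝ) ≤
      4 * T / x ^ (7/4 : ℝ) + 8 := by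
    have h4 : (T + 2 * δ ^ (7/4 : ℝ)) / w ^ (7/4 : ℝ) ≤
        (T + 2 * x ^ (7/4 : ℝ)) / (x ^ (7/4 : ℝ) / 4) := by
      apply div_le_div₀ (by positivity) (by linarith) (by positivity)
      linarith
    refine h4.trans (le_of_eq ?_)
    field_simp
    ring
  have h5 : w ^ 14 ≤ x ^ 14 := pow_le_pow_left₀ hw.le hw2 14
  have h6 : 0 ≤ K * ((T + 2 * δ ^ (7/4 : ℝ)) / w ^ (7/4 : ℝ) + N0 + 9) := by positivity
  have e1 : x ^ 14 / x ^ (7/4 : ℝ) = x ^ (49/4 : ℝ) := by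
    rw [← Real.rpow_natCast x 14, ← Real.rpow_sub hx]
    norm_num
  calc w ^ 14 * (K * ((T + 2 * δ ^ (7/4 : ℝ)) / w ^ (7/4 : ℝ) + N0 + 9))
      ≤ x ^ 14 * (K * ((T + 2 * δ ^ (7/4 : ℝ)) / w ^ (7/4 : ℝ) + N0 + 9)) :=
        mul_le_mul_of_nonneg_right h5 h6
    _ ≤ x ^ 14 * (K * (4 * T / x ^ (7/4 : ℝ) + 8 + N0 + 9)) := by
        refine mul_le_mul_of_nonneg_left ?_ (by positivity)
        refine mul_le_mul_of_nonneg_left ?_ hK.le
        linarith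
    _ = K * (4 * ((x ^ 14 / x ^ (7/4 : ℝ)) * T) + (N0 + 17) * x ^ 14) := by
        field_simp
        ring
    _ = _ := by rw [e1]

/-- The bound holds at the scale `2 ^ (-j)` for small meshes, up to a small probability. -/
theorem meshE {c C : ℝ} (hc : 0 < c) (hC : 0 < C) (hL : LowA c (1/4)) (hU : TwoUp C (1/4)) :
    ∃ K : ℝ, 0 < K ∧ ∀ R : Rect, ∃ B : ℝ, 0 < B ∧ ∀ j : ℕ, ∃ δ1 : ℝ, 0 < δ1 ∧
      ∀ δ : ℝ, 0 < δ → δ ≤ δ1 →
        R.prob δ (fun F => (R.curve δ F, R.time δ F) ∉ EQ K j) ≤ B * (1/4) ^ j := by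
  obtain ⟨s0, K, hs0, hK, hgood⟩ := goodE_pr hc hC hL hU
  refine ⟨17 * K, by positivity, fun R => ?_⟩
  obtain ⟨κ, S, δ0, hκ, hS, hδ0, hδ01, hshape⟩ := R.shape
  obtain ⟨j0, hj0⟩ : ∃ j0 : ℕ, ((1:ℝ)/2) ^ j0 < κ * S / 8 :=
    exists_pow_lt_of_lt_one (by positivity) (by norm_num)
  set B := 38 * (2 * S + 2) ^ 2 + 4 ^ j0 with hB
  have hB0 : 0 < B := by positivity
  refine ⟨B, hB0, fun j => ?_⟩
  rcases lt_or_ge j j0 with hjj | hjj
  · refine ⟨1, one_pos, fun δ _ _ => ?_⟩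
    have h1 : R.prob δ (fun F => (R.curve δ F, R.time δ F) ∉ EQ (17 * K) j) ≤ 1 := by
      unfold Rect.prob
      exact Pr_le_one two_ok _ _
    refine h1.trans ?_
    have h2 : (1:ℝ) ≤ 4 ^ j0 * (1/4) ^ j := by
      have e : (1:ℝ) = 4 ^ j * (1/4) ^ j := by rw [← mul_pow]; norm_num
      exact e.le.trans (mul_le_mul_of_nonneg_right (pow_le_pow_right₀ (by norm_num) hjj.le)
        (by positivity))
    refine h2.trans (mul_le_mul_of_nonneg_right ?_ (by positivity))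
    rw [hB]
    have : 0 ≤ 38 * (2 * S + 2) ^ 2 := by positivity
    linarith
  set x : ℝ := (1/2:ℝ) ^ j with hx
  have hx0 : 0 < x := by positivity
  have hx1 : x ≤ 1 := pow_le_one₀ (by norm_num) (by norm_num)
  have hxS : 8 * x ≤ κ * S := by
    have : x ≤ (1/2) ^ j0 := pow_le_pow_of_le_one (by norm_num) (by norm_num) hjj
    linarith
  refine ⟨min δ0 (x / (s0 + 3)), by positivity, fun δ hδ hδle => ?_⟩
  have hd0 : δ ≤ δ0 := hδle.trans (min_le_left _ _)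
  have hd1 : δ ≤ x / (s0 + 3) := hδle.trans (min_le_right _ _)
  have hd2 : δ * (s0 + 3) ≤ x := by
    rw [le_div_iff₀ (by positivity)] at hd1
    exact hd1
  have hdx : δ ≤ x := by nlinarith
  have hsh := hshape δ hδ hd0
  have hok := hsh.ok
  obtain ⟨W, hW⟩ : ∃ W : ℕ, W = ⌊x / δ⌋₊ := ⟨_, rfl⟩
  have hxd : s0 + 3 ≤ x / δ := by
    rw [le_div_iff₀ hδ]
    linarith
  have hW1 : (W:ℝ) ≤ x / δ := by rw [hW]; exact Nat.floor_le (by positivity)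
  have hW1' : x / δ < (W:ℝ) + 1 := by rw [hW]; exact Nat.lt_floor_add_one _
  have hWs : s0 + 2 ≤ W := by linarith
  have hW2 : 2 ≤ W := by
    have : (2:ℝ) ≤ W := by linarith
    exact_mod_cast this
  have hWr : (0:ℝ) < W := by linarith
  have hw2 : δ * (W:ℝ) ≤ x := by
    rw [le_div_iff₀ hδ] at hW1
    linarith
  have hw1 : x / 2 ≤ δ * (W:ℝ) := by
    rw [div_lt_iff₀ hδ] at hW1'
    nlinarith
  have hw0 : 0 < δ * (W:ℝ) := by positivity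
  obtain ⟨hSB, -⟩ := SB_card hok (W := W) (by omega) hsh.w_le hsh.h_le
  have hnW : S / δ / W ≤ 2 * S / x := by
    rw [div_div, div_le_div_iff₀ (by positivity) hx0]
    nlinarith
  have h8 : (8:ℝ) * W ≤ κ * (S / δ) := by
    have e : κ * (S / δ) = κ * S / δ := by ring
    rw [e, le_div_iff₀ hδ]
    linarith
  have g1 : 8 * (W:ℤ) ≤ -(R.dm δ).l := by
    have : ((8 * (W:ℤ) : ℤ) : ℝ) ≤ ((-(R.dm δ).l : ℤ) : ℝ) := by
      push_cast
      have := hsh.l_ge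
      linarith
    exact_mod_cast this
  have g2 : 8 * (W:ℤ) ≤ (R.dm δ).r := by
    have : ((8 * (W:ℤ) : ℤ) : ℝ) ≤ (((R.dm δ).r : ℤ) : ℝ) := by
      push_cast
      have := hsh.r_ge
      linarith
    exact_mod_cast this
  have g3 : 8 * (W:ℤ) ≤ (R.dm δ).h := by
    have : ((8 * (W:ℤ) : ℤ) : ℝ) ≤ (((R.dm δ).h : ℤ) : ℝ) := by
      push_cast
      have := hsh.h_ge
      linarith
    exact_mod_cast this
  have h1 := hgood (R.dm δ) hok W (by omega) (by linarith) g1 g2 g3 (4 * j)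
  have hpr : ((SB (R.dm δ) W).card : ℝ) * (38 * (1/2) ^ (4 * j)) ≤ B * (1/4) ^ j := by
    have h2 : S / δ / W + 2 ≤ (2 * S + 2) / x := by
      have : 2 ≤ 2 / x := by
        rw [le_div_iff₀ hx0]
        linarith
      rw [add_div]
      linarith
    have h3 : (S / δ / W + 2) ^ 2 ≤ ((2 * S + 2) / x) ^ 2 :=
      pow_le_pow_left₀ (by positivity) h2 2
    have e4 : ((1:ℝ)/2) ^ (4 * j) = x ^ 4 := by
      rw [hx, ← pow_mul, mul_comm]
    have e5 : ((1:ℝ)/4) ^ j = x ^ 2 := by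
      rw [hx, ← pow_mul, mul_comm, pow_mul]
      norm_num
    rw [e4, e5]
    calc ((SB (R.dm δ) W).card : ℝ) * (38 * x ^ 4) ≤ ((2 * S + 2) / x) ^ 2 * (38 * x ^ 4) :=
          mul_le_mul_of_nonneg_right (hSB.trans h3) (by positivity)
      _ = 38 * (2 * S + 2) ^ 2 * x ^ 2 := by
          field_simp
      _ ≤ B * x ^ 2 := by
          refine mul_le_mul_of_nonneg_right ?_ (by positivity)
          rw [hB]
          have : (0:ℝ) ≤ 4 ^ j0 := by positivity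
          linarith
  refine le_trans ?_ (h1.trans hpr)
  unfold Rect.prob
  refine Pr_mono two_ok fun F hF hnot hG => hnot ?_
  have hj0' : (0:ℝ) ≤ j := Nat.cast_nonneg j
  intro s t hst
  have hst' : (s:ℝ) ≤ t := hst
  have h2 := en7_curve hok hF hδ (W := W) (by omega) hK hG hst (r := x / 8) (by positivity)
    (by linarith)
  have e9 : (R.curve δ F, R.time δ F).2 = δ ^ (7/4 : ℝ) * (R.dm δ).len F := rfl
  have hT0 : 0 ≤ ((t:ℝ) - s) * (δ ^ (7/4 : ℝ) * (R.dm δ).len F) :=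
    mul_nonneg (by linarith) (by positivity)
  rw [e9]
  refine h2.trans ((real_E hK hx0 hw1 hw2 hT0 (Nat.cast_nonneg _) hδ hdx).trans ?_)
  have hA : 0 ≤ x ^ (49/4 : ℝ) * (((t:ℝ) - s) * (δ ^ (7/4 : ℝ) * (R.dm δ).len F)) := by positivity
  have hx14 : 0 ≤ x ^ 14 := by positivity
  push_cast
  have h10 : 0 ≤ K * (x ^ (49/4 : ℝ) * (((t:ℝ) - s) * (δ ^ (7/4 : ℝ) * (R.dm δ).len F))) :=
    mul_nonneg hK.le hA
  have h11 : 0 ≤ K * (j * x ^ 14) := by positivity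
  have e12 : K * (4 * (x ^ (49/4 : ℝ) * (((t:ℝ) - s) * (δ ^ (7/4 : ℝ) * (R.dm δ).len F))) +
      (4 * (j:ℝ) + 17) * x ^ 14) =
      4 * (K * (x ^ (49/4 : ℝ) * (((t:ℝ) - s) * (δ ^ (7/4 : ℝ) * (R.dm δ).len F)))) +
      4 * (K * (j * x ^ 14)) + 17 * (K * x ^ 14) := by ring
  have e13 : 17 * K * (x ^ (49/4 : ℝ) * (((t:ℝ) - s) * (δ ^ (7/4 : ℝ) * (R.dm δ).len F)) +
      ((j:ℝ) + 1) * x ^ 14) =
      17 * (K * (x ^ (49/4 : ℝ) * (((t:ℝ) - s) * (δ ^ (7/4 : ℝ) * (R.dm δ).len F)))) +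
      17 * (K * (j * x ^ 14)) + 17 * (K * x ^ 14) := by ring
  rw [e12, e13]
  linarith

/-- The bound holds almost surely at all small scales. -/
theorem lim_aeE {K : ℝ} {R : Rect} {B : ℝ} (hB : 0 < B)
    (h : ∀ j : ℕ, ∃ δ1 : ℝ, 0 < δ1 ∧ ∀ δ : ℝ, 0 < δ → δ ≤ δ1 →
      R.prob δ (fun F => (R.curve δ F, R.time δ F) ∉ EQ K j) ≤ B * (1/4) ^ j)
    {δ : ℕ → ℝ} (hδ : ∀ i, 0 < δ i) (hlim : Tendsto δ atTop (𝓝 0))
    {μ : ProbabilityMeasure X} (hμ : Tendsto (fun i => R.law (δ i)) atTop (𝓝 μ)) :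
    ∀ᵐ p ∂(μ : Measure X), ∀ᶠ j : ℕ in atTop, p ∈ EQ K j := by
  have h1 : ∀ j, (μ : Measure X) (EQ K j)ᶜ ≤ ENNReal.ofReal (B * (1/4) ^ j) := by
    intro j
    obtain ⟨δ1, hδ1, h2⟩ := h j
    exact limit_closed R hδ hlim hμ (EQ_closed K j) (by positivity) hδ1 fun d hd hd1 => h2 d hd hd1
  have hsum : ∑' j, (μ : Measure X) (EQ K j)ᶜ ≠ ⊤ := by
    refine (lt_of_le_of_lt (ENNReal.tsum_le_tsum h1) ?_).ne
    rw [← ENNReal.ofReal_tsum_of_nonneg (fun j => by positivity)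
      ((summable_geometric_of_lt_one (by norm_num) (by norm_num)).mul_left B)]
    exact ENNReal.ofReal_lt_top
  have h3 := ae_eventually_notMem hsum
  filter_upwards [h3] with p hp
  filter_upwards [hp] with j hj
  by_contra hcon
  exact hj hcon

end Pool.Agent.N481.EP
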