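import Pool.Agent.TH992.T.Tail3
import Pool.Agent.Y994.MC.UpD

/-!
Exponential moments of the eighth power of the number of vertices with two arms in a box, and connected sets of
blocks.
-/

set_option autoImplicit false

namespace Pool.Agent.N481.EP

open H974 Finset H342P H984P H984N TH992.T Y994.MC

/-- exponential moments of the eighth powers of the normalised numbers -/
theorem exp8 (B : ℝ) {C0 : ℝ} (hC0 : 0 ≤ C0) : ∃ l M : ℝ, 0 < l ∧ 1 ≤ M ∧
    ∀ (p : Edg → ℝ) (S : Finset Edg) (x : ℕ → Vtx → Finset Edg → ℝ), Fam (1/4) B C0 p S x →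
    ∀ (s : ℕ) (b c : ℤ), 1 ≤ s →
      Ex p S (fun F => Real.exp ((Yb (1/4) x s b c F / l) ^ 8 / 2)) ≤ M := by
  obtain ⟨l, hl, h1⟩ := tail1 (a := 1/4) (C0 := C0) (by norm_num) (by norm_num) B hC0
  refine ⟨l, max (Real.exp (Real.log 9 + 1 / 2) * (1 - Real.exp (-(1/2)))⁻¹) 1, hl,
    le_max_right _ _, fun p S x h s b c hs => ?_⟩
  refine (expmom h.ok (fun F => (Yb (1/4) x s b c F / l) ^ 8) (fun F => by positivity)
    (u0 := Real.log 9) (fun v hv => ?_) ⌈(B * (s : ℝ) ^ (1/4 : ℝ) / l) ^ 8⌉₊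
    (fun F _ => ?_)).trans (le_max_left _ _)
  · have h2 := h1 p S x h s b c (l * v ^ (1/8 : ℝ)) hs (by positivity)
    refine le_trans (Pr_mono h.ok fun F _ hF => ?_) (h2.trans (le_of_eq ?_))
    · have h3 : v ^ (1/8 : ℝ) ≤ Yb (1/4) x s b c F / l := by
        have h0 : 0 ≤ Yb (1/4) x s b c F / l := div_nonneg (Yb_nonneg h _ _ _ _) hl.le
        have h4 : v ^ (1/8 : ℝ) ≤ ((Yb (1/4) x s b c F / l) ^ 8) ^ (1/8 : ℝ) :=
          Real.rpow_le_rpow hv hF (by norm_num)
        have h5 : ((Yb (1/4) x s b c F / l) ^ 8) ^ (1/8 : ℝ) = Yb (1/4) x s b c F / l := by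
          rw [← Real.rpow_natCast, ← Real.rpow_mul h0]
          norm_num
        rwa [h5] at h4
      rw [le_div_iff₀ hl] at h3
      linarith
    · have e1 : l * v ^ (1/8 : ℝ) / l = v ^ (1/8 : ℝ) := by field_simp
      have e2 : (v ^ (1/8 : ℝ)) ^ (2 / (1/4) : ℝ) = v := by
        rw [← Real.rpow_mul hv]
        norm_num
      rw [e1, e2, sub_eq_add_neg, Real.exp_add, Real.exp_log (by norm_num)]
  · refine le_trans ?_ (Nat.le_ceil _)
    have h2 := Yb_le h hs b c F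
    have h0 := Yb_nonneg h s b c F
    have h3 : Yb (1/4) x s b c F / l ≤ B * (s : ℝ) ^ (1/4 : ℝ) / l :=
      div_le_div_of_nonneg_right h2 hl.le
    exact pow_le_pow_left₀ (div_nonneg h0 hl.le) h3 8

/-- A connected set of blocks with a large sum of eighth powers. -/
def Heavy8 (D : Dm) (W : ℕ) (l K : ℝ) (N0 Nm : ℕ) (q0 : Vtx) (F : Finset Edg) : Prop :=
  ∃ N ∈ range (Nm + 1), ∃ A ∈ TH992.L.AS (2 * (N - 1)) q0, A.card = N ∧
    K * ((max N N0 : ℕ) : ℝ) ≤ ∑ q ∈ A, (Yq D W q F / l) ^ 8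

theorem heavy8_pr {C : ℝ} (hC : 0 < C) (hU : TwoUp C (1/4)) : ∃ l K : ℝ, 0 < l ∧ 0 < K ∧
    ∀ (D : Dm) (W : ℕ), 1 ≤ W → ∀ (N0 Nm : ℕ) (q0 : Vtx),
      P D.edges (Heavy8 D W l K N0 Nm q0) ≤ 18 * (1/2) ^ N0 := by
  obtain ⟨l, M, hl, hM1, hM⟩ := exp8 4 (C0 := 4 * (C + 1) * (1 + 8 * (1 + 1 / (1 - 1/4))))
    (by positivity)
  have hM0 : 0 < M := by linarith
  refine ⟨l, 18 * Real.log (324 * M), hl, ?_, fun D W hW N0 Nm q0 => ?_⟩
  · have : 0 < Real.log (324 * M) := Real.log_pos (by linarith)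
    positivity
  set K := 18 * Real.log (324 * M) with hK
  have hF := xs_fam hC hU D
  have step : ∀ N : ℕ, ∀ A ∈ TH992.L.AS (2 * (N - 1)) q0,
      P D.edges (fun F => A.card = N ∧ K * ((max N N0 : ℕ) : ℝ) ≤ ∑ q ∈ A, (Yq D W q F / l) ^ 8) ≤
        9 * (1/324) ^ (max N N0) := by
    intro N A _
    by_cases hc : A.card = N
    · have h1 := chernV two_ok A (fun q => Tb D.edges W (q.1 * W) (q.2 * W))
        (fun q => inter_subset_right) (fun q r h1 h2 h3 => Tb_disjZ hW h1 h2 h3)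
        (fun q F => (Yq D W q F / l) ^ 8 / 2) (fun q F hF' => by
          show (Yq D W q F / l) ^ 8 / 2 = (Yq D W q (F ∩ _) / l) ^ 8 / 2
          unfold Yq Yb
          rw [← Nb_local hF W _ _ F hF']) hM1
        (fun q => hM _ _ _ hF W _ _ hW) (K / 18 * ((max N N0 : ℕ) : ℝ))
      refine le_trans (Pr_mono two_ok fun F _ h => ?_) (h1.trans ?_)
      · have h2 := h.2
        rw [← sum_div]
        linarith
      · have e1 : Real.exp (-(K / 18 * ((max N N0 : ℕ) : ℝ))) = (1 / (324 * M)) ^ (max N N0) := by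
          rw [hK]
          have e2 : -(18 * Real.log (324 * M) / 18 * ((max N N0 : ℕ) : ℝ)) =
              ((max N N0 : ℕ) : ℝ) * (-Real.log (324 * M)) := by ring
          rw [e2, Real.exp_nat_mul, Real.exp_neg, Real.exp_log (by positivity), one_div]
        have e3 : M ^ A.card ≤ M ^ (max N N0) := pow_le_pow_right₀ hM1 (by omega)
        rw [e1]
        refine mul_le_mul_of_nonneg_left ?_ (by norm_num)
        calc (1 / (324 * M)) ^ (max N N0) * M ^ A.card
            ≤ (1 / (324 * M)) ^ (max N N0) * M ^ (max N N0) :=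
              mul_le_mul_of_nonneg_left e3 (by positivity)
          _ = (1/324) ^ (max N N0) := by
              rw [← mul_pow]
              congr 1
              field_simp
    · have h0 : P D.edges (fun F => A.card = N ∧ K * ((max N N0 : ℕ) : ℝ) ≤
          ∑ q ∈ A, (Yq D W q F / l) ^ 8) = 0 := by
        unfold P Pr
        rw [Ex_congr (g := fun _ => 0) (fun F _ => ind_not_of (fun h => hc h.1)), Ex_const]
      rw [h0]
      positivity
  unfold Heavy8
  refine (Pr_exists_le two_ok _ _ _).trans ?_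
  have h2 : ∀ N ∈ range (Nm + 1), Pr (fun _ => (1/2:ℝ)) D.edges (fun F =>
      ∃ A ∈ TH992.L.AS (2 * (N - 1)) q0, A.card = N ∧
        K * ((max N N0 : ℕ) : ℝ) ≤ ∑ q ∈ A, (Yq D W q F / l) ^ 8) ≤
          9 * (1/2) ^ N0 * (1/2) ^ N := by
    intro N _
    refine (Pr_exists_le two_ok _ _ _).trans ?_
    refine (sum_le_card_nsmul _ _ _ (step N)).trans ?_
    rw [nsmul_eq_mul]
    have h3 := AS_card' N q0
    have h4 : ((TH992.L.AS (2 * (N - 1)) q0).card : ℝ) ≤ 81 ^ (max N N0) :=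
      h3.trans (pow_le_pow_right₀ (by norm_num) (le_max_left _ _))
    calc ((TH992.L.AS (2 * (N - 1)) q0).card : ℝ) * (9 * (1/324) ^ (max N N0))
        ≤ 81 ^ (max N N0) * (9 * (1/324) ^ (max N N0)) :=
          mul_le_mul_of_nonneg_right h4 (by positivity)
      _ = 9 * (1/4) ^ (max N N0) := by
          have : (1/4 : ℝ) ^ (max N N0) = 81 ^ (max N N0) * (1/324) ^ (max N N0) := by
            rw [← mul_pow]; norm_num
          rw [this]; ring
      _ ≤ 9 * ((1/2) ^ N0 * (1/2) ^ N) :=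
          mul_le_mul_of_nonneg_left (four_max N N0) (by norm_num)
      _ = 9 * (1/2) ^ N0 * (1/2) ^ N := by ring
  refine (sum_le_sum h2).trans ?_
  rw [← mul_sum]
  have h5 := sum_geometric_two_le (Nm + 1)
  have h6 : (0:ℝ) ≤ 9 * (1/2) ^ N0 := by positivity
  calc 9 * (1/2 : ℝ) ^ N0 * ∑ i ∈ range (Nm + 1), (1/2) ^ i ≤ 9 * (1/2) ^ N0 * 2 :=
        mul_le_mul_of_nonneg_left h5 h6
    _ = 18 * (1/2) ^ N0 := by ring

end Pool.Agent.N481.EP
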